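import Mathlib
import Pool.Agent.H713R5.QJ.TMINA

/-! The minimum principle without smallness: the functional 'area + c dist²' decreases up to the
boundary of the ball, or up to a point where the local inequality fails. -/

set_option autoImplicit false

open Topology Filter Metric Set Polynomial MeasureTheory
open Pool.Agent.H713R3.ZA Pool.Agent.H713R5.QJ

namespace Pool.Agent.N251.AD

theorem mina2 (V J : Type) [NormedAddCommGroup V] [NormedSpace ℂ V] [FiniteDimensional ℂ V]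
    [Fintype J]
    (cf : J → V → ℂ) (τ : J → ℂ) (AN : V → ℝ) (L : Set V) (f : V → ℂ) (p₂ : V)
    (n₀ c₀ η : ℝ) (hcf : ∀ j, Differentiable ℂ (cf j)) (hAK0 : ∀ p, 0 ≤ AN p) (hc₀ : 0 < c₀)
    (hη : 0 < η) (hL : IsCompact L) (hfc : ContinuousOn f L) (hlsc : LowerSemicontinuousOn AN L)
    (hx₂ : p₂ ∈ L) (hfx₂ : f p₂ ≠ 0)
    (hstep : ∀ p ∈ L, f p ≠ 0 → ∑ j, ‖cf j p - τ j‖ ^ 2 < n₀ →
      AN p + c₀ / 2 * ∑ j, ‖cf j p - τ j‖ ^ 2 ≤
        AN p₂ + c₀ / 2 * ∑ j, ‖cf j p₂ - τ j‖ ^ 2 + η →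
      ∃ (r₀ : ℝ) (γ : ℂ → V), 0 < r₀ ∧ γ 0 = p ∧ DifferentiableOn ℂ γ (ball 0 r₀) ∧
        (∀ t ∈ ball (0 : ℂ) r₀, γ t ∈ L ∧ f (γ t) ≠ 0) ∧
        DifferentiableOn ℂ (fun t => f (γ t)) (ball 0 r₀) ∧
        (∃ j, deriv (fun t => cf j (γ t)) 0 ≠ 0) ∧
        ∀ r : ℝ, 0 < r → r < r₀ → ∀ η : ℝ, 0 < η → ∀ q : ℝ → ℝ, Continuous q →
          ∃ θ : ℝ, AN (γ (circleMap 0 r θ)) + q θ <
            AN (γ 0) + η + (2 * Real.pi)⁻¹ * ∫ θ in (0 : ℝ)..(2 * Real.pi),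
              (q θ - c₀ * ∑ j, ‖cf j (γ (circleMap 0 r θ)) - cf j (γ 0)‖ ^ 2)) :
    ∃ p ∈ L, f p ≠ 0 ∧ n₀ ≤ ∑ j, ‖cf j p - τ j‖ ^ 2 ∧
      AN p + c₀ / 2 * ∑ j, ‖cf j p - τ j‖ ^ 2 ≤
        AN p₂ + c₀ / 2 * ∑ j, ‖cf j p₂ - τ j‖ ^ 2 + η := by
  by_contra hno
  push Not at hno
  have hpi := Real.pi_pos
  set c : ℝ := c₀ / 2 with hc
  have hc0 : 0 < c := by positivity
  obtain ⟨Fm₀, hFm₀⟩ := hL.exists_bound_of_continuousOn hfc
  set Fm : ℝ := max 1 Fm₀ with hFm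
  have hFm1 : 1 ≤ Fm := le_max_left _ _
  have hFmb : ∀ x ∈ L, ‖f x‖ ≤ Fm := fun x hx => (hFm₀ x hx).trans (le_max_right _ _)
  have hlF : 0 ≤ Real.log Fm := Real.log_nonneg hFm1
  set D : ℝ := 1 + Real.log Fm + |Real.log ‖f p₂‖| with hD
  have hD0 : 0 < D := by positivity
  set δ : ℝ := η / 2 / D with hδ
  have hδ0 : 0 < δ := by positivity
  have hδD : δ * D = η / 2 := by rw [hδ]; field_simp
  have hδ1 : δ * Real.log Fm ≤ η / 2 := by
    rw [← hδD]
    apply mul_le_mul_of_nonneg_left _ hδ0.le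
    have := abs_nonneg (Real.log ‖f p₂‖)
    linarith
  have hδ2 : -(δ * Real.log ‖f p₂‖) ≤ η / 2 := by
    rw [← hδD, ← mul_neg]
    apply mul_le_mul_of_nonneg_left _ hδ0.le
    have := neg_le_abs (Real.log ‖f p₂‖)
    linarith
  set DT : V → ℝ := fun p => ∑ j, ‖cf j p - τ j‖ ^ 2 with hDT
  have hDTc : Continuous DT :=
    continuous_finsetSum _ fun j _ => (((hcf j).continuous).sub continuous_const).norm.pow 2
  set W : V → ℝ := fun x => AN x + (c * DT x - δ * Real.log ‖f x‖) with hW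
  have hD0' : ∀ x : V, 0 ≤ c * DT x := fun x => mul_nonneg hc0.le
    (Finset.sum_nonneg fun _ _ => by positivity)
  have hlog : ∀ x ∈ L, f x ≠ 0 → δ * Real.log ‖f x‖ ≤ η / 2 := by
    intro x hx hfx
    refine le_trans ?_ hδ1
    apply mul_le_mul_of_nonneg_left _ hδ0.le
    exact Real.log_le_log (norm_pos_iff.mpr hfx) (hFmb x hx)
  set S₀ : ℝ := AN p₂ + c * DT p₂ with hS₀
  have hS₀0 : 0 ≤ S₀ := add_nonneg (hAK0 p₂) (hD0' p₂)
  set f₀ : ℝ := Real.exp (-((S₀ + η) / δ)) with hf₀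
  have hf₀0 : 0 < f₀ := Real.exp_pos _
  set K₁ : Set V := L ∩ f ⁻¹' {w | f₀ ≤ ‖w‖} with hK₁
  have hK₁c : IsCompact K₁ := by
    apply hL.of_isClosed_subset
    · exact hfc.preimage_isClosed_of_isClosed hL.isClosed
          (isClosed_le continuous_const continuous_norm)
    · rintro x ⟨h1, -⟩; exact h1
  have hK₁ne : ∀ x ∈ K₁, f x ≠ 0 := by
    rintro x ⟨-, h2⟩ h4
    have h2' : f₀ ≤ ‖f x‖ := h2
    rw [h4, norm_zero] at h2'
    linarith
  have hWx₂ : W p₂ ≤ S₀ + η / 2 := by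
    simp only [hW]
    linarith
  -- points with small `f` have large `W`
  have hbig : ∀ x ∈ L, f x ≠ 0 → x ∉ K₁ → S₀ + η ≤ W x := by
    intro x hx hfx hxK
    have h1 : ‖f x‖ < f₀ := by
      by_contra h
      exact hxK ⟨hx, not_lt.mp h⟩
    have h2 : Real.log ‖f x‖ ≤ -((S₀ + η) / δ) := by
      have := Real.log_le_log (norm_pos_iff.mpr hfx) h1.le
      rwa [hf₀, Real.log_exp] at this
    have h3 : δ * Real.log ‖f x‖ ≤ δ * (-((S₀ + η) / δ)) := mul_le_mul_of_nonneg_left h2 hδ0.le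
    have h4 : δ * (-((S₀ + η) / δ)) = -(S₀ + η) := by field_simp
    have h5 := hAK0 x
    have h6 := hD0' x
    simp only [hW]
    linarith
  have hp₂K : p₂ ∈ K₁ := by
    by_contra h
    have := hbig p₂ hx₂ hfx₂ h
    linarith
  have hWlsc : LowerSemicontinuousOn W K₁ := by
    have h1 : LowerSemicontinuousOn AN K₁ := hlsc.mono (fun x hx => hx.1)
    have h2 : ContinuousOn (fun x => c * DT x - δ * Real.log ‖f x‖) K₁ := by
      refine ((continuous_const.mul hDTc).continuousOn).sub (continuousOn_const.mul ?_)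
      refine ContinuousOn.log ((hfc.mono (fun x hx => hx.1)).norm) ?_
      intro x hx
      exact (norm_pos_iff.mpr (hK₁ne x hx)).ne'
    exact h1.add h2.lowerSemicontinuousOn
  obtain ⟨x, hxK, hxmin⟩ := hWlsc.exists_isMinOn ⟨p₂, hp₂K⟩ hK₁c
  have hx := hxK.1
  have hfx := hK₁ne x hxK
  have hWx : W x ≤ S₀ + η / 2 := (hxmin hp₂K).trans hWx₂
  have hmin : ∀ y ∈ L, f y ≠ 0 → W x ≤ W y := by
    intro y hy hfy
    by_cases hyK : y ∈ K₁
    · exact hxmin hyK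
    · have := hbig y hy hfy hyK
      linarith
  have hWxe : W x = AN x + (c * DT x - δ * Real.log ‖f x‖) := rfl
  have hlogx := hlog x hx hfx
  have hAx : AN x + c * DT x ≤ S₀ + η := by
    rw [hWxe] at hWx
    linarith
  have hDx : DT x < n₀ := by
    by_contra h
    rw [not_lt] at h
    exact absurd hAx (not_le.mpr (hno x hx hfx h))
  obtain ⟨r₀, γ, hr₀, hγ0, hγd, hγL, hfγd, ⟨j, hj⟩, hγs⟩ := hstep x hx hfx hDx hAx
  set r : ℝ := r₀ / 2 with hr
  have hr0 : 0 < r := by positivity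
  have hrr : r < r₀ := by linarith
  have hdj : 0 < ‖deriv (fun t => cf j (γ t)) 0‖ := norm_pos_iff.mpr hj
  set gain : ℝ := c * (r ^ 2 * ‖deriv (fun t => cf j (γ t)) 0‖ ^ 2) with hgain
  have hgain0 : 0 < gain := by positivity
  have hfγ : ∀ t ∈ ball (0 : ℂ) r₀, f (γ t) ≠ 0 := fun t ht => (hγL t ht).2
  have hγc := circ_cont hr0 hrr hγd.continuousOn
  have hlogc : Continuous (fun θ : ℝ => Real.log ‖f (γ (circleMap 0 r θ))‖) := by
    have h1 := circ_cont hr0 hrr hfγd.continuousOn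
    exact h1.norm.log (fun θ => (norm_pos_iff.mpr (hfγ _ (circ_mem hr0 hrr θ))).ne')
  have hDTγ : Continuous (fun θ : ℝ => DT (γ (circleMap 0 r θ))) := hDTc.comp hγc
  have hDlγ : Continuous (fun θ : ℝ => ∑ j, ‖cf j (γ (circleMap 0 r θ)) - cf j (γ 0)‖ ^ 2) :=
    continuous_finsetSum _ fun j _ =>
      ((((hcf j).continuous).comp hγc).sub continuous_const).norm.pow 2
  set q : ℝ → ℝ := fun θ => c * DT (γ (circleMap 0 r θ)) -
    δ * Real.log ‖f (γ (circleMap 0 r θ))‖ with hq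
  have hqc : Continuous q := (continuous_const.mul hDTγ).sub (continuous_const.mul hlogc)
  obtain ⟨θ, hθ⟩ := hγs r hr0 hrr (gain / 2) (by positivity) q hqc
  have hθm := circ_mem hr0 hrr θ
  have hge : W x ≤ AN (γ (circleMap 0 r θ)) + q θ := hmin _ (hγL _ hθm).1 (hγL _ hθm).2
  -- evaluation of the integral
  set J' : ℝ := ∫ θ in (0 : ℝ)..(2 * Real.pi),
    ∑ j, ‖cf j (γ (circleMap 0 r θ)) - cf j (γ 0)‖ ^ 2 with hJ
  have hDTi : ∫ θ in (0 : ℝ)..(2 * Real.pi), DT (γ (circleMap 0 r θ)) =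
      2 * Real.pi * DT (γ 0) + J' := MINA_circ hcf hr0 hrr hγd τ
  have hint : ∫ θ in (0 : ℝ)..(2 * Real.pi), (q θ - c₀ * ∑ j, ‖cf j (γ (circleMap 0 r θ)) -
      cf j (γ 0)‖ ^ 2) =
      c * (2 * Real.pi * DT (γ 0) + J') - δ * (2 * Real.pi * Real.log ‖f (γ 0)‖) -
        c₀ * J' := by
    have i1 : IntervalIntegrable q volume 0 (2 * Real.pi) := hqc.intervalIntegrable _ _
    have i2 : IntervalIntegrable (fun θ : ℝ => c₀ * ∑ j, ‖cf j (γ (circleMap 0 r θ)) -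
        cf j (γ 0)‖ ^ 2) volume 0 (2 * Real.pi) :=
      (continuous_const.mul hDlγ).intervalIntegrable _ _
    have i3 : IntervalIntegrable (fun θ : ℝ => c * DT (γ (circleMap 0 r θ)))
        volume 0 (2 * Real.pi) := (continuous_const.mul hDTγ).intervalIntegrable _ _
    have i4 : IntervalIntegrable (fun θ : ℝ => δ * Real.log ‖f (γ (circleMap 0 r θ))‖)
        volume 0 (2 * Real.pi) := (continuous_const.mul hlogc).intervalIntegrable _ _
    rw [intervalIntegral.integral_sub i1 i2, intervalIntegral.integral_const_mul]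
    simp only [hq]
    rw [intervalIntegral.integral_sub i3 i4, intervalIntegral.integral_const_mul,
      intervalIntegral.integral_const_mul, hDTi,
      circ_log hr0 hrr hfγd hfγ]
  have hJge : 2 * Real.pi * (r ^ 2 * ‖deriv (fun t => cf j (γ t)) 0‖ ^ 2) ≤ J' :=
    MINA_circ_ge hcf hr0 hrr hγd j
  rw [hint, hγ0] at hθ
  have h1 : (2 * Real.pi)⁻¹ * (c * (2 * Real.pi * DT x + J') -
      δ * (2 * Real.pi * Real.log ‖f x‖) - c₀ * J') =
      c * DT x - δ * Real.log ‖f x‖ - c * ((2 * Real.pi)⁻¹ * J') := by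
    have h2 : c₀ = 2 * c := by rw [hc]; ring
    rw [h2]
    field_simp
    ring
  have h2 : gain ≤ c * ((2 * Real.pi)⁻¹ * J') := by
    rw [hgain]
    apply mul_le_mul_of_nonneg_left _ hc0.le
    rw [inv_mul_eq_div, le_div_iff₀ (by positivity), mul_comm]
    exact hJge
  rw [h1] at hθ
  rw [hWxe] at hge
  linarith

end Pool.Agent.N251.AD
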