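import Mathlib

/-! A compact set which is invariant under an entire map with expansion has zero area. -/

set_option autoImplicit false

open Topology Filter Metric Set MeasureTheory

namespace Pool.Agent.N251.AD

theorem det_mul (c : ℂ) :
    ((ContinuousLinearMap.toSpanSingleton ℂ c).restrictScalars ℝ).det = ‖c‖ ^ 2 := by
  have : (((ContinuousLinearMap.toSpanSingleton ℂ c).restrictScalars ℝ : ℂ →L[ℝ] ℂ) : ℂ →ₗ[ℝ] ℂ) =
      ((LinearMap.toSpanSingleton ℂ ℂ c).restrictScalars ℝ) := by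
    ext <;> simp
  rw [ContinuousLinearMap.det, this, LinearMap.det_restrictScalars]
  simp [Algebra.norm_complex_apply, Complex.normSq_eq_norm_sq]

section
variable {G : ℂ → ℂ} {K : Set ℂ}

theorem iter_diff (hG : Differentiable ℂ G) (k : ℕ) : Differentiable ℂ G^[k] := by
  induction k with
  | zero => exact differentiable_id
  | succ k ih => rw [Function.iterate_succ']; exact hG.comp ih

theorem deriv_iter_succ (hG : Differentiable ℂ G) (k : ℕ) (y : ℂ) :
    deriv G^[k + 1] y = deriv G (G^[k] y) * deriv G^[k] y := by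
  rw [Function.iterate_succ']
  exact deriv_comp y (hG _) (iter_diff hG k y)

theorem deriv_iter_add (hG : Differentiable ℂ G) (j k : ℕ) (y : ℂ) :
    deriv G^[j + k] y = deriv G^[j] (G^[k] y) * deriv G^[k] y := by
  rw [Function.iterate_add]
  exact deriv_comp y (iter_diff hG j _) (iter_diff hG k y)

theorem iter_mem (hK : ∀ z ∈ K, G z ∈ K) (n : ℕ) : ∀ z ∈ K, G^[n] z ∈ K := by
  induction n with
  | zero => exact fun z hz => hz
  | succ n ih => intro z hz; rw [Function.iterate_succ_apply']; exact hK _ (ih z hz)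

theorem growth (hG : Differentiable ℂ G) (hK : ∀ z ∈ K, G z ∈ K)
    (h4 : ∀ z ∈ K, 4 ≤ ‖deriv G z‖) (n : ℕ) : ∀ z ∈ K, (4 : ℝ) ^ n ≤ ‖deriv G^[n] z‖ := by
  induction n with
  | zero =>
    intro z _
    have : G^[0] = id := rfl
    rw [this, deriv_id]
    simp
  | succ n ih =>
    intro z hz
    rw [deriv_iter_succ hG, norm_mul, pow_succ, mul_comm]
    exact mul_le_mul (h4 _ (iter_mem hK n z hz)) (ih z hz) (by positivity) (norm_nonneg _)

theorem growth2 (hG : Differentiable ℂ G) (hK : ∀ z ∈ K, G z ∈ K)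
    (h4 : ∀ z ∈ K, 4 ≤ ‖deriv G z‖) {k n : ℕ} (hkn : k ≤ n) {z : ℂ} (hz : z ∈ K) :
    (4 : ℝ) ^ n * ‖deriv G^[k] z‖ ≤ 4 ^ k * ‖deriv G^[n] z‖ := by
  obtain ⟨j, rfl⟩ : ∃ j, n = j + k := ⟨n - k, by omega⟩
  rw [deriv_iter_add hG, norm_mul, pow_add]
  have h1 := growth hG hK h4 j _ (iter_mem hK k z hz)
  have h2 : (0 : ℝ) ≤ 4 ^ k * ‖deriv G^[k] z‖ := by positivity
  nlinarith

/-- bounded distortion -/
theorem distortion (hG : Differentiable ℂ G) (hK : ∀ z ∈ K, G z ∈ K)
    (h4 : ∀ z ∈ K, 4 ≤ ‖deriv G z‖) {R L ρ : ℝ} (hR : ∀ z ∈ K, ‖z‖ ≤ R)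
    (hL0 : 0 ≤ L) (hL : ∀ y ∈ closedBall (0 : ℂ) (R + 1), ∀ z ∈ closedBall (0 : ℂ) (R + 1),
      ‖deriv G y - deriv G z‖ ≤ L * ‖y - z‖) (hρ : 0 < ρ) (hρ1 : ρ ≤ 1 / 2) (hLρ : L * ρ ≤ 1)
    {z : ℂ} (hz : z ∈ K) (n : ℕ) :
    ∀ k ≤ n, ∀ y ∈ closedBall z (ρ / ‖deriv G^[n] z‖),
      ‖deriv G^[k] y - deriv G^[k] z‖ ≤ 4 ^ k / 4 ^ (n + 1) * ‖deriv G^[k] z‖ := by
  have hdn : (0 : ℝ) < ‖deriv G^[n] z‖ := lt_of_lt_of_le (by positivity) (growth hG hK h4 n z hz)
  set r : ℝ := ρ / ‖deriv G^[n] z‖ with hr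
  have hr0 : 0 < r := by positivity
  intro k
  induction k with
  | zero =>
    intro _ y _
    have : G^[0] = id := rfl
    rw [this, deriv_id, deriv_id, sub_self, norm_zero]
    positivity
  | succ k ih =>
    intro hkn y hy
    have ih' := ih (by omega)
    set b : ℝ := 4 ^ k / 4 ^ (n + 1) with hb
    have hb0 : 0 < b := by positivity
    have hb1 : b ≤ 1 / 4 := by
      rw [hb, div_le_div_iff₀ (by positivity) (by norm_num), one_mul, ← pow_succ]
      exact pow_le_pow_right₀ (by norm_num) (by omega)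
    have hbs : (4 : ℝ) ^ (k + 1) / 4 ^ (n + 1) = 4 * b := by
      rw [hb, pow_succ]; ring
    have hD : ∀ x ∈ closedBall z r, ‖deriv G^[k] x‖ ≤ (5 / 4) * ‖deriv G^[k] z‖ := by
      intro x hx
      have h1 := ih' x hx
      have h2 : ‖deriv G^[k] x‖ ≤ ‖deriv G^[k] x - deriv G^[k] z‖ + ‖deriv G^[k] z‖ := by
        have := norm_add_le (deriv G^[k] x - deriv G^[k] z) (deriv G^[k] z)
        rwa [sub_add_cancel] at this
      have h3 : b * ‖deriv G^[k] z‖ ≤ 1 / 4 * ‖deriv G^[k] z‖ :=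
        mul_le_mul_of_nonneg_right hb1 (norm_nonneg _)
      linarith
    have hzz : z ∈ closedBall z r := mem_closedBall_self hr0.le
    have hmv : ‖G^[k] y - G^[k] z‖ ≤ (5 / 4) * ‖deriv G^[k] z‖ * ‖y - z‖ :=
      (convex_closedBall z r).norm_image_sub_le_of_norm_deriv_le
        (fun x _ => iter_diff hG k x) hD hzz hy
    have hyr : ‖y - z‖ ≤ r := by rwa [mem_closedBall, dist_eq_norm] at hy
    have hgr : ‖deriv G^[k] z‖ * r ≤ 4 * ρ * b := by
      have h1 := growth2 hG hK h4 (show k ≤ n by omega) hz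
      rw [hr, hb, ← mul_div_assoc, div_le_iff₀ hdn]
      have h2 : 4 * ρ * ((4 : ℝ) ^ k / 4 ^ (n + 1)) * ‖deriv G^[n] z‖ =
          ρ * (4 ^ k * ‖deriv G^[n] z‖) / 4 ^ n := by
        rw [pow_succ]; field_simp
      rw [h2, le_div_iff₀ (by positivity)]
      nlinarith
    have hdist : ‖G^[k] y - G^[k] z‖ ≤ 5 * ρ * b := by
      have h1 : (5 / 4) * ‖deriv G^[k] z‖ * ‖y - z‖ ≤ (5 / 4) * ‖deriv G^[k] z‖ * r :=
        mul_le_mul_of_nonneg_left hyr (by positivity)
      nlinarith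
    have hGz : ‖G^[k] z‖ ≤ R := hR _ (iter_mem hK k z hz)
    have hGy : ‖G^[k] y‖ ≤ R + 1 := by
      have h1 : ‖G^[k] y‖ ≤ ‖G^[k] y - G^[k] z‖ + ‖G^[k] z‖ := by
        have := norm_add_le (G^[k] y - G^[k] z) (G^[k] z)
        rwa [sub_add_cancel] at this
      have h2 : 5 * ρ * b ≤ 1 := by nlinarith
      linarith
    have hlip := hL (G^[k] y) (by rw [mem_closedBall_zero_iff]; exact hGy) (G^[k] z)
      (by rw [mem_closedBall_zero_iff]; linarith)
    have h4k := h4 _ (iter_mem hK k z hz)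
    rw [deriv_iter_succ hG, deriv_iter_succ hG, hbs]
    have e1 : deriv G (G^[k] y) * deriv G^[k] y - deriv G (G^[k] z) * deriv G^[k] z =
        (deriv G (G^[k] y) - deriv G (G^[k] z)) * deriv G^[k] y +
          deriv G (G^[k] z) * (deriv G^[k] y - deriv G^[k] z) := by ring
    rw [e1]
    refine (norm_add_le _ _).trans ?_
    rw [norm_mul, norm_mul, norm_mul]
    set g := ‖deriv G (G^[k] z)‖ with hg
    set d := ‖deriv G^[k] z‖ with hd
    have hd0 : 0 ≤ d := norm_nonneg _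
    have f1 : ‖deriv G (G^[k] y) - deriv G (G^[k] z)‖ ≤ 5 * b := by
      have h1 : L * ‖G^[k] y - G^[k] z‖ ≤ L * (5 * ρ * b) := mul_le_mul_of_nonneg_left hdist hL0
      have h2 : L * (5 * ρ * b) = 5 * b * (L * ρ) := by ring
      have h3 : 5 * b * (L * ρ) ≤ 5 * b * 1 := mul_le_mul_of_nonneg_left hLρ (by positivity)
      linarith
    have f2 := hD y hy
    have f3 := ih' y hy
    have t1 : ‖deriv G (G^[k] y) - deriv G (G^[k] z)‖ * ‖deriv G^[k] y‖ ≤
        (5 * b) * (5 / 4 * d) := mul_le_mul f1 f2 (norm_nonneg _) (by positivity)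
    have t2 : g * ‖deriv G^[k] y - deriv G^[k] z‖ ≤ g * (b * d) :=
      mul_le_mul_of_nonneg_left f3 (norm_nonneg _)
    have t3 : 0 ≤ b * d := by positivity
    have t4 : 4 * (b * d) ≤ g * (b * d) := mul_le_mul_of_nonneg_right h4k t3
    nlinarith

/-- the image of a small disc contains a disc of definite size -/
theorem image_ball (hG : Differentiable ℂ G) (hK : ∀ z ∈ K, G z ∈ K)
    (h4 : ∀ z ∈ K, 4 ≤ ‖deriv G z‖) {R L ρ : ℝ} (hR : ∀ z ∈ K, ‖z‖ ≤ R)
    (hL0 : 0 ≤ L) (hL : ∀ y ∈ closedBall (0 : ℂ) (R + 1), ∀ z ∈ closedBall (0 : ℂ) (R + 1),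
      ‖deriv G y - deriv G z‖ ≤ L * ‖y - z‖) (hρ : 0 < ρ) (hρ1 : ρ ≤ 1 / 2) (hLρ : L * ρ ≤ 1)
    {z : ℂ} (hz : z ∈ K) (n : ℕ) :
    ball (G^[n] z) (3 / 8 * ρ) ⊆ G^[n] '' closedBall z (ρ / ‖deriv G^[n] z‖) := by
  have hdn : (0 : ℝ) < ‖deriv G^[n] z‖ := lt_of_lt_of_le (by positivity) (growth hG hK h4 n z hz)
  set r : ℝ := ρ / ‖deriv G^[n] z‖ with hr
  have hr0 : 0 < r := by positivity
  have hdist := distortion hG hK h4 hR hL0 hL hρ hρ1 hLρ hz n n le_rfl
  have hquart : (4 : ℝ) ^ n / 4 ^ (n + 1) = 1 / 4 := by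
    rw [pow_succ]; field_simp
  rw [hquart] at hdist
  set g : ℂ → ℂ := G^[n] with hg
  have hgd : Differentiable ℂ g := iter_diff hG n
  have hlow : ∀ y ∈ closedBall z r, 3 / 4 * ‖deriv g z‖ * ‖y - z‖ ≤ ‖g y - g z‖ := by
    intro y hy
    have h1 : ‖(g y - deriv g z * y) - (g z - deriv g z * z)‖ ≤ 1 / 4 * ‖deriv g z‖ * ‖y - z‖ := by
      apply (convex_closedBall z r).norm_image_sub_le_of_norm_deriv_le
        (f := fun x => g x - deriv g z * x) (fun x _ => ?_) (fun x hx => ?_)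
        (mem_closedBall_self hr0.le) hy
      · exact (hgd x).sub ((differentiableAt_id).const_mul _)
      · have h2 : deriv (fun x => g x - deriv g z * x) x = deriv g x - deriv g z := by
          have h3 : HasDerivAt (fun x => g x - deriv g z * x) (deriv g x - deriv g z * 1) x :=
            (hgd x).hasDerivAt.fun_sub ((hasDerivAt_id x).const_mul (deriv g z))
          rw [h3.deriv, mul_one]
        rw [h2]
        exact hdist x hx
    have h2 : g y - g z = ((g y - deriv g z * y) - (g z - deriv g z * z)) + deriv g z * (y - z) := by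
      ring
    have h3 : ‖deriv g z * (y - z)‖ ≤ ‖g y - g z‖ +
        ‖(g y - deriv g z * y) - (g z - deriv g z * z)‖ := by
      have h4 : deriv g z * (y - z) = (g y - g z) -
          ((g y - deriv g z * y) - (g z - deriv g z * z)) := by ring
      rw [h4]
      exact norm_sub_le _ _
    rw [norm_mul] at h3
    linarith
  have h1 := DiffContOnCl.ball_subset_image_closedBall (f := g) (z₀ := z) (r := r)
    (ε := 3 / 4 * ρ) hgd.diffContOnCl hr0 (fun y hy => by
      have h2 := hlow y (sphere_subset_closedBall hy)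
      rw [mem_sphere, dist_eq_norm] at hy
      rw [hy] at h2
      have h3 : 3 / 4 * ‖deriv g z‖ * r = 3 / 4 * ρ := by
        rw [hr]; field_simp
      rwa [h3] at h2) (by
      have h2 : ∀ᶠ y in 𝓝[≠] z, g y ≠ g z :=
        (hgd z).hasDerivAt.eventually_ne (norm_pos_iff.1 hdn)
      exact h2.frequently.filter_mono nhdsWithin_le_nhds)
  have e1 : 3 / 4 * ρ / 2 = 3 / 8 * ρ := by ring
  rwa [e1] at h1

/-- there are no interior points -/
theorem no_interior (hG : Differentiable ℂ G) (hK : ∀ z ∈ K, G z ∈ K)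
    (h4 : ∀ z ∈ K, 4 ≤ ‖deriv G z‖) {R : ℝ} (hR : ∀ z ∈ K, ‖z‖ ≤ R) {w : ℂ} (hw : w ∈ K) {δ : ℝ}
    (hδ : 0 < δ) : ∃ y ∈ ball w δ, y ∉ K := by
  by_contra hcon
  push Not at hcon
  have hb : ∀ n : ℕ, (4 : ℝ) ^ n ≤ R / (δ / 2) := by
    intro n
    refine (growth hG hK h4 n w hw).trans ?_
    apply Complex.norm_deriv_le_of_forall_mem_sphere_norm_le (by positivity)
      (iter_diff hG n).diffContOnCl
    intro y hy
    apply hR
    apply iter_mem hK n
    apply hcon
    rw [mem_sphere] at hy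
    rw [mem_ball, hy]
    linarith
  obtain ⟨n, hn⟩ := pow_unbounded_of_one_lt (R / (δ / 2)) (by norm_num : (1 : ℝ) < 4)
  exact absurd (hb n) (not_le.mpr hn)

/-- the complement has definite area in discs of a fixed size -/
theorem lower (hKc : IsCompact K) {δ : ℝ} (hδ : 0 < δ)
    (hno : ∀ w ∈ K, ∀ δ : ℝ, 0 < δ → ∃ y ∈ ball w δ, y ∉ K) :
    ∃ κ : ℝ, 0 < κ ∧ ∀ w ∈ K, ENNReal.ofReal κ ≤ volume (ball w δ \ K) := by
  apply hKc.induction_on (p := fun S => ∃ κ : ℝ, 0 < κ ∧ ∀ w ∈ S,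
    ENNReal.ofReal κ ≤ volume (ball w δ \ K))
  · exact ⟨1, one_pos, fun w hw => absurd hw (notMem_empty w)⟩
  · rintro S S' hS ⟨κ, hκ, h⟩
    exact ⟨κ, hκ, fun w hw => h w (hS hw)⟩
  · rintro S S' ⟨κ, hκ, h⟩ ⟨κ', hκ', h'⟩
    refine ⟨min κ κ', lt_min hκ hκ', ?_⟩
    rintro w (hw | hw)
    · exact (ENNReal.ofReal_le_ofReal (min_le_left _ _)).trans (h w hw)
    · exact (ENNReal.ofReal_le_ofReal (min_le_right _ _)).trans (h' w hw)
  · intro w hw
    obtain ⟨y, hy, hyK⟩ := hno w hw (δ / 2) (by positivity)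
    have ho : IsOpen (ball w (δ / 2) \ K) := isOpen_ball.sdiff hKc.isClosed
    have hpos : 0 < volume (ball w (δ / 2) \ K) := ho.measure_pos volume ⟨y, hy, hyK⟩
    have hfin : volume (ball w (δ / 2) \ K) < ⊤ :=
      (measure_mono sdiff_subset).trans_lt measure_ball_lt_top
    refine ⟨ball w (δ / 2), mem_nhdsWithin_of_mem_nhds (ball_mem_nhds w (by positivity)),
      (volume (ball w (δ / 2) \ K)).toReal, ENNReal.toReal_pos hpos.ne' hfin.ne, ?_⟩
    intro w' hw'
    rw [ENNReal.ofReal_toReal hfin.ne]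
    apply measure_mono
    apply sdiff_subset_sdiff_left
    intro x hx
    rw [mem_ball] at *
    have h1 := dist_triangle x w w'
    rw [dist_comm w w'] at h1
    linarith

/-- The area estimate. -/
theorem area_est {g : ℂ → ℂ} (hg : Differentiable ℂ g) (hKm : MeasurableSet K)
    (hgK : ∀ z ∈ K, g z ∈ K) {z : ℂ} {r ρ' M : ℝ} (hM : ∀ y ∈ closedBall z r, ‖deriv g y‖ ≤ M)
    (himg : ball (g z) ρ' ⊆ g '' closedBall z r) :
    volume (ball (g z) ρ' \ K) ≤ ENNReal.ofReal (M ^ 2) * volume (closedBall z r \ K) := by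
  have hA : MeasurableSet (closedBall z r \ K) := measurableSet_closedBall.diff hKm
  have h1 : ball (g z) ρ' \ K ⊆ g '' (closedBall z r \ K) := by
    rintro w ⟨hw, hwK⟩
    obtain ⟨y, hy, rfl⟩ := himg hw
    exact ⟨y, ⟨hy, fun hyK => hwK (hgK y hyK)⟩, rfl⟩
  refine (measure_mono h1).trans ?_
  have h2 := addHaar_image_le_lintegral_abs_det_fderiv volume hA (f := g)
    (f' := fun y => (ContinuousLinearMap.toSpanSingleton ℂ (deriv g y)).restrictScalars ℝ)
    (fun y _ => ((hg y).hasDerivAt.hasFDerivAt.restrictScalars ℝ).hasFDerivWithinAt)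
  refine h2.trans ?_
  rw [← setLIntegral_const]
  apply setLIntegral_mono measurable_const
  intro y hy
  apply ENNReal.ofReal_le_ofReal
  rw [det_mul, abs_of_nonneg (by positivity)]
  exact pow_le_pow_left₀ (norm_nonneg _) (hM y hy.1) 2

/-- A compact invariant set with expansion has zero area. -/
theorem null_of_four (hG : Differentiable ℂ G) (hKc : IsCompact K) (hK : ∀ z ∈ K, G z ∈ K)
    (h4 : ∀ z ∈ K, 4 ≤ ‖deriv G z‖) : volume K = 0 := by
  have hKm : MeasurableSet K := hKc.measurableSet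
  obtain ⟨R, hR0, hR⟩ : ∃ R : ℝ, 0 < R ∧ ∀ z ∈ K, ‖z‖ ≤ R := by
    obtain ⟨R, hR⟩ := hKc.isBounded.subset_closedBall (0 : ℂ)
    refine ⟨max R 1, lt_max_of_lt_right one_pos, fun z hz => ?_⟩
    have := hR hz
    rw [mem_closedBall_zero_iff] at this
    exact this.trans (le_max_left _ _)
  -- the Lipschitz constant of the derivative
  have hG' : Differentiable ℂ (deriv G) := fun w => (hG.analyticAt w).deriv.differentiableAt
  have hG'' : Continuous (deriv (deriv G)) := by
    have : Differentiable ℂ (deriv (deriv G)) :=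
      fun w => (hG'.analyticAt w).deriv.differentiableAt
    exact this.continuous
  obtain ⟨L₀, hL₀⟩ := (isCompact_closedBall (0 : ℂ) (R + 1)).exists_bound_of_continuousOn
    hG''.continuousOn
  set L : ℝ := max L₀ 1 with hL
  have hL1 : 1 ≤ L := le_max_right _ _
  have hLip : ∀ y ∈ closedBall (0 : ℂ) (R + 1), ∀ z ∈ closedBall (0 : ℂ) (R + 1),
      ‖deriv G y - deriv G z‖ ≤ L * ‖y - z‖ := by
    intro y hy z hz
    exact (convex_closedBall (0 : ℂ) (R + 1)).norm_image_sub_le_of_norm_deriv_le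
      (fun x _ => hG' x) (fun x hx => (hL₀ x hx).trans (le_max_left _ _)) hz hy
  set ρ : ℝ := 1 / (2 * L) with hρd
  have hρ : 0 < ρ := by positivity
  have hρ1 : ρ ≤ 1 / 2 := by
    rw [hρd, div_le_div_iff₀ (by positivity) (by norm_num)]
    linarith
  have hLρ : L * ρ ≤ 1 := by
    have : L * ρ = 1 / 2 := by rw [hρd]; field_simp
    rw [this]; norm_num
  obtain ⟨κ, hκ, hlow⟩ := lower hKc (show 0 < 3 / 8 * ρ by positivity)
    (fun w hw δ hδ => no_interior hG hK h4 hR hw hδ)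
  -- Lebesgue density
  have hdens := Besicovitch.ae_tendsto_measure_inter_div (volume : Measure ℂ) K
  by_contra hne
  have hae : ∃ z ∈ K, Tendsto (fun r => volume (K ∩ closedBall z r) / volume (closedBall z r))
      (𝓝[>] 0) (𝓝 1) := by
    by_contra hcon
    push Not at hcon
    have h1 : ∀ᵐ z ∂(volume.restrict K), z ∉ K := by
      filter_upwards [hdens] with z hz hzK
      exact hcon z hzK hz
    have h2 : ∀ᵐ z ∂(volume.restrict K), z ∈ K := ae_restrict_mem hKm
    have h3 : ∀ᵐ z ∂(volume.restrict K), False := by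
      filter_upwards [h1, h2] with z a b
      exact a b
    rw [ae_iff] at h3
    simp only [not_false_eq_true, Set.ofPred_true, Measure.restrict_apply_univ] at h3
    exact hne h3
  obtain ⟨z, hz, hlim⟩ := hae
  set r : ℕ → ℝ := fun n => ρ / ‖deriv G^[n] z‖ with hr
  have hdn : ∀ n : ℕ, (0 : ℝ) < ‖deriv G^[n] z‖ := fun n =>
    lt_of_lt_of_le (by positivity) (growth hG hK h4 n z hz)
  have hr0 : ∀ n, 0 < r n := fun n => div_pos hρ (hdn n)
  have hrlim : Tendsto r atTop (𝓝[>] 0) := by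
    rw [tendsto_nhdsWithin_iff]
    refine ⟨?_, Filter.Eventually.of_forall hr0⟩
    have h1 : ∀ n, r n ≤ ρ * (1 / 4) ^ n := by
      intro n
      have h2 := growth hG hK h4 n z hz
      show ρ / ‖deriv G^[n] z‖ ≤ ρ * (1 / 4) ^ n
      rw [div_pow, one_pow, mul_one_div]
      exact div_le_div_of_nonneg_left hρ.le (by positivity) h2
    have h2 : Tendsto (fun n : ℕ => ρ * (1 / 4 : ℝ) ^ n) atTop (𝓝 (ρ * 0)) :=
      (tendsto_pow_atTop_nhds_zero_of_lt_one (by norm_num) (by norm_num)).const_mul ρ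
    rw [mul_zero] at h2
    exact squeeze_zero (fun n => (hr0 n).le) h1 h2
  have hlim2 := hlim.comp hrlim
  -- the proportion of the complement
  set q : ℝ := κ / (25 / 16) / (Real.pi * ρ ^ 2) with hq
  have hpi := Real.pi_pos
  have hq0 : 0 < q := by positivity
  have hbound : ∀ n, volume (K ∩ closedBall z (r n)) / volume (closedBall z (r n)) ≤
      1 - ENNReal.ofReal q := by
    intro n
    have hd := hdn n
    set d := ‖deriv G^[n] z‖ with hdd
    have hquart : (4 : ℝ) ^ n / 4 ^ (n + 1) = 1 / 4 := by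
      rw [pow_succ]; field_simp
    have hM : ∀ y ∈ closedBall z (r n), ‖deriv G^[n] y‖ ≤ 5 / 4 * d := by
      intro y hy
      have h1 := distortion hG hK h4 hR (by linarith) hLip hρ hρ1 hLρ hz n n le_rfl y hy
      rw [hquart] at h1
      have h2 : ‖deriv G^[n] y‖ ≤ ‖deriv G^[n] y - deriv G^[n] z‖ + ‖deriv G^[n] z‖ := by
        have := norm_add_le (deriv G^[n] y - deriv G^[n] z) (deriv G^[n] z)
        rwa [sub_add_cancel] at this
      linarith
    have h1 := area_est (iter_diff hG n) hKm (fun z hz => iter_mem hK n z hz) hM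
      (image_ball hG hK h4 hR (by linarith) hLip hρ hρ1 hLρ hz n)
    have h2 := (hlow _ (iter_mem hK n z hz)).trans h1
    have hcb : volume (closedBall z (r n)) = ENNReal.ofReal (Real.pi * (r n) ^ 2) := by
      rw [Complex.volume_closedBall, mul_comm, ENNReal.ofReal_mul hpi.le,
        ENNReal.ofReal_pow (hr0 n).le]
      congr 1
      rw [← NNReal.coe_real_pi, ENNReal.ofReal_coe_nnreal]
    have hfin1 : volume (closedBall z (r n) \ K) ≠ ⊤ :=
      ((measure_mono sdiff_subset).trans_lt measure_closedBall_lt_top).ne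
    set v₁ := (volume (closedBall z (r n) \ K)).toReal with hv₁
    have hv₁' : volume (closedBall z (r n) \ K) = ENNReal.ofReal v₁ :=
      (ENNReal.ofReal_toReal hfin1).symm
    have hv₁0 : 0 ≤ v₁ := ENNReal.toReal_nonneg
    have h3 : κ ≤ (5 / 4 * d) ^ 2 * v₁ := by
      rw [hv₁', ← ENNReal.ofReal_mul (by positivity)] at h2
      exact (ENNReal.ofReal_le_ofReal_iff (by positivity)).1 h2
    have hsplit : volume (K ∩ closedBall z (r n)) + volume (closedBall z (r n) \ K) =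
        volume (closedBall z (r n)) := by
      rw [inter_comm]
      exact measure_inter_add_sdiff _ hKm
    have hfin2 : volume (K ∩ closedBall z (r n)) ≠ ⊤ :=
      ((measure_mono inter_subset_right).trans_lt measure_closedBall_lt_top).ne
    set v₂ := (volume (K ∩ closedBall z (r n))).toReal with hv₂
    have hv₂' : volume (K ∩ closedBall z (r n)) = ENNReal.ofReal v₂ :=
      (ENNReal.ofReal_toReal hfin2).symm
    have hv₂0 : 0 ≤ v₂ := ENNReal.toReal_nonneg
    have hsum : v₂ + v₁ = Real.pi * (r n) ^ 2 := by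
      rw [hv₁', hv₂', hcb, ← ENNReal.ofReal_add hv₂0 hv₁0] at hsplit
      exact (ENNReal.ofReal_eq_ofReal_iff (by positivity) (by positivity)).1 hsplit
    have hrn : r n = ρ / d := rfl
    have hpr : 0 < Real.pi * (r n) ^ 2 := by have := hr0 n; positivity
    rw [hv₂', hcb, ← ENNReal.ofReal_div_of_pos hpr]
    have hqle : v₂ / (Real.pi * (r n) ^ 2) ≤ 1 - q := by
      have h5 : q * (Real.pi * (r n) ^ 2) ≤ v₁ := by
        have e1 : q * (Real.pi * (r n) ^ 2) = κ / ((5 / 4 * d) ^ 2) := by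
          rw [hq, hrn]; field_simp; ring
        rw [e1, div_le_iff₀ (by positivity)]
        linarith
      rw [div_le_iff₀ hpr]
      linarith
    have hq1 : (1 : ENNReal) - ENNReal.ofReal q = ENNReal.ofReal (1 - q) := by
      rw [ENNReal.ofReal_sub _ hq0.le, ENNReal.ofReal_one]
    rw [hq1]
    exact ENNReal.ofReal_le_ofReal hqle
  have hle : (1 : ENNReal) ≤ 1 - ENNReal.ofReal q := le_of_tendsto' hlim2 hbound
  have hlt : (1 : ENNReal) - ENNReal.ofReal q < 1 :=
    ENNReal.sub_lt_self ENNReal.one_ne_top one_ne_zero (ENNReal.ofReal_pos.2 hq0).ne'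
  exact absurd hle (not_le.mpr hlt)

/-- A compact invariant set with exponential expansion has zero area. -/
theorem null_of_expand (hG : Differentiable ℂ G) (hKc : IsCompact K) (hK : ∀ z ∈ K, G z ∈ K)
    {C q : ℝ} (hC : 0 < C) (hq0 : 0 < q) (hq1 : q < 1)
    (hexp : ∀ z ∈ K, ∀ n : ℕ, C ≤ q ^ n * ‖deriv G^[n] z‖) : volume K = 0 := by
  have h1 : Tendsto (fun n : ℕ => q ^ n * 4) atTop (𝓝 (0 * 4)) :=
    (tendsto_pow_atTop_nhds_zero_of_lt_one hq0.le hq1).mul_const 4
  rw [zero_mul] at h1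
  obtain ⟨N, hN⟩ := (h1.eventually (gt_mem_nhds hC)).exists
  apply null_of_four (G := G^[N]) (iter_diff hG N) hKc (fun z hz => iter_mem hK N z hz)
  intro z hz
  have h2 := hexp z hz N
  have h3 : 0 < q ^ N := by positivity
  by_contra hcon
  push Not at hcon
  have h4 := mul_lt_mul_of_pos_left hcon h3
  linarith

end

end Pool.Agent.N251.AD
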