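import Mathlib
import Pool.Agent.N251.AD.Null

/-! Expansion of a polynomial on compact invariant sets away from the critical values. -/

set_option autoImplicit false

open Topology Filter Metric Set MeasureTheory Polynomial

namespace Pool.Agent.N251.AD

theorem exists_lift (p : ℂ[X]) {U : Set ℂ} (hcv : ∀ c, (derivative p).eval c = 0 → p.eval c ∉ U)
    {φ : ℂ → ℂ} (hφ : DifferentiableOn ℂ φ (ball 0 1)) (hφU : ∀ t ∈ ball (0 : ℂ) 1, φ t ∈ U)
    {z : ℂ} (hz : p.eval z = φ 0) :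
    ∃ ψ : ℂ → ℂ, DifferentiableOn ℂ ψ (ball 0 1) ∧ (∀ t ∈ ball (0 : ℂ) 1, p.eval (ψ t) = φ t) ∧
      ψ 0 = z := by
  classical
  have cov := p.isCoveringMapOn_eval
  have h0 : (0 : ℂ) ∈ ball (0 : ℂ) 1 := mem_ball_self one_pos
  haveI : ContractibleSpace (ball (0 : ℂ) 1) := (convex_ball (0 : ℂ) 1).contractibleSpace ⟨0, h0⟩
  haveI : LocallyPathConnectedSpace (ball (0 : ℂ) 1) := isOpen_ball.locallyPathConnectedSpace
  obtain ⟨F, ⟨hF0, hF⟩, -⟩ := cov.existsUnique_continuousMap_lifts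
    (⟨fun t => φ t, hφ.continuousOn.domRestrict⟩ : C(ball (0 : ℂ) 1, ℂ)) (a₀ := ⟨0, h0⟩) (e₀ := z) hz
    (fun t => by
      rintro ⟨c, hc, hct⟩
      have hct' : p.eval c = φ t := hct
      exact hcv c hc (by rw [hct']; exact hφU t.1 t.2))
  have hF' : ∀ t : ball (0 : ℂ) 1, p.eval (F t) = φ t := fun t => congrFun hF t
  set ψ : ℂ → ℂ := fun t => if h : t ∈ ball (0 : ℂ) 1 then F ⟨t, h⟩ else 0 with hψ
  have hψF : ∀ t : ball (0 : ℂ) 1, ψ t = F t := by
    intro t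
    simp only [hψ, dif_pos t.2]
  have hψp : ∀ t ∈ ball (0 : ℂ) 1, p.eval (ψ t) = φ t := by
    intro t ht
    have h1 := hψF ⟨t, ht⟩
    simp only at h1
    rw [h1]
    exact hF' ⟨t, ht⟩
  have hψc : ContinuousOn ψ (ball 0 1) := by
    rw [continuousOn_iff_continuous_domRestrict]
    have h1 : (ball (0 : ℂ) 1).domRestrict ψ = F := by
      funext t
      exact hψF t
    rw [h1]
    exact F.continuous
  refine ⟨ψ, ?_, hψp, ?_⟩
  · intro t ht
    apply DifferentiableAt.differentiableWithinAt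
    have hnhds : ball (0 : ℂ) 1 ∈ 𝓝 t := isOpen_ball.mem_nhds ht
    have hcont : ContinuousAt ψ t := hψc.continuousAt hnhds
    have hne : (derivative p).eval (ψ t) ≠ 0 := by
      intro hc
      exact hcv _ hc (by rw [hψp t ht]; exact hφU t ht)
    have hs : HasStrictDerivAt (fun x => p.eval x) ((derivative p).eval (ψ t)) (ψ t) :=
      p.hasStrictDerivAt _
    set g := hs.localInverse (fun x => p.eval x) _ _ hne with hg
    have h1 : ∀ᶠ x in 𝓝 (ψ t), g (p.eval x) = x :=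
      HasStrictFDerivAt.eventually_left_inverse (hs.hasStrictFDerivAt_equiv hne)
    have h2 : HasStrictDerivAt g ((derivative p).eval (ψ t))⁻¹ (p.eval (ψ t)) :=
      hs.to_localInverse hne
    have h3 : ψ =ᶠ[𝓝 t] fun s => g (φ s) := by
      filter_upwards [hcont.eventually h1, hnhds] with s e1 e2
      rw [← hψp s e2, e1]
    have h4 : DifferentiableAt ℂ g (φ t) := by
      rw [← hψp t ht]
      exact h2.hasDerivAt.differentiableAt
    exact (h4.comp t (hφ.differentiableAt hnhds)).congr_of_eventuallyEq h3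
  · have h1 := hψF ⟨0, h0⟩
    simp only at h1
    rw [h1, hF0]

/-- `m` is the size of the derivative of a holomorphic disc in `U` with centre `z` -/
def IsDisc (U : Set ℂ) (z : ℂ) (m : ℝ) : Prop :=
  ∃ φ : ℂ → ℂ, DifferentiableOn ℂ φ (ball 0 1) ∧ (∀ t ∈ ball (0 : ℂ) 1, φ t ∈ U) ∧ φ 0 = z ∧
    ‖deriv φ 0‖ = m

/-- the largest derivative -/
noncomputable def Mx (U : Set ℂ) (z : ℂ) : ℝ := sSup {m | IsDisc U z m}

theorem isDisc_le {U : Set ℂ} {R : ℝ} (hU : U ⊆ ball 0 R) {z : ℂ} {m : ℝ} (h : IsDisc U z m) :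
    m ≤ 2 * R := by
  obtain ⟨φ, hd, hφ, -, rfl⟩ := h
  have h0 : (0 : ℂ) ∈ ball (0 : ℂ) 1 := mem_ball_self one_pos
  have h1 := Complex.norm_deriv_le_div_of_mapsTo_ball (R₂ := 2 * R) hd (fun t ht => by
    have e1 := hU (hφ t ht)
    have e2 := hU (hφ 0 h0)
    rw [mem_ball_zero_iff] at e1 e2
    rw [mem_closedBall, dist_eq_norm]
    have := norm_sub_le (φ t) (φ 0)
    linarith) one_pos
  rwa [div_one] at h1

theorem bdd {U : Set ℂ} {R : ℝ} (hU : U ⊆ ball 0 R) (z : ℂ) : BddAbove {m | IsDisc U z m} :=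
  ⟨2 * R, fun _ h => isDisc_le hU h⟩

theorem isDisc_zero {U : Set ℂ} {z : ℂ} (hz : z ∈ U) : IsDisc U z 0 :=
  ⟨fun _ => z, differentiableOn_const _, fun _ _ => hz, rfl, by simp⟩

theorem isDisc_ball {U : Set ℂ} {z : ℂ} {δ : ℝ} (hδ : 0 < δ) (h : ball z δ ⊆ U) :
    IsDisc U z δ := by
  have hd : ∀ t, HasDerivAt (fun t : ℂ => z + (δ : ℂ) * t) (δ : ℂ) t := by
    intro t
    have h1 := ((hasDerivAt_id t).const_mul (δ : ℂ)).const_add z
    rw [mul_one] at h1
    exact h1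
  refine ⟨fun t => z + δ * t, fun t _ => (hd t).differentiableAt.differentiableWithinAt,
    fun t ht => h ?_, by simp, ?_⟩
  · rw [mem_ball, dist_eq_norm, add_sub_cancel_left, norm_mul, Complex.norm_real,
      Real.norm_of_nonneg hδ.le]
    rw [mem_ball_zero_iff] at ht
    nlinarith [norm_nonneg t]
  · rw [(hd 0).deriv, Complex.norm_real, Real.norm_of_nonneg hδ.le]

theorem Mx_step {p : ℂ[X]} {U : Set ℂ} {R ε : ℝ} (hU : U ⊆ ball 0 R)
    (hcv : ∀ c, (derivative p).eval c = 0 → p.eval c ∉ U) (hε : 0 < ε)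
    (hth : ∀ w, p.eval w ∈ U → ball w ε ⊆ U) {z : ℂ} (hz : p.eval z ∈ U) :
    Mx U (p.eval z) ≤ ‖(derivative p).eval z‖ * (Mx U z - ε) := by
  apply csSup_le ⟨0, isDisc_zero hz⟩
  rintro m ⟨φ, hd, hφ, h0, rfl⟩
  obtain ⟨ψ, hψd, hψp, hψ0⟩ := exists_lift p hcv hd hφ h0.symm
  have hb0 : (0 : ℂ) ∈ ball (0 : ℂ) 1 := mem_ball_self one_pos
  have hψ' : HasDerivAt ψ (deriv ψ 0) 0 :=
    (hψd.differentiableAt (isOpen_ball.mem_nhds hb0)).hasDerivAt
  -- the derivative of the lift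
  have hchain : deriv φ 0 = (derivative p).eval z * deriv ψ 0 := by
    have h1 : HasDerivAt (fun t => p.eval (ψ t)) ((derivative p).eval (ψ 0) * deriv ψ 0) 0 :=
      (p.hasDerivAt (ψ 0)).comp (0 : ℂ) hψ'
    have h2 : φ =ᶠ[𝓝 0] fun t => p.eval (ψ t) := by
      filter_upwards [isOpen_ball.mem_nhds hb0] with t ht
      exact (hψp t ht).symm
    rw [h2.deriv_eq, h1.deriv, hψ0]
  -- the enlarged disc
  obtain ⟨u, hu1, hu2⟩ : ∃ u : ℂ, ‖u‖ = 1 ∧ ‖deriv ψ 0 + (ε : ℂ) * u‖ = ‖deriv ψ 0‖ + ε := by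
    by_cases h : deriv ψ 0 = 0
    · refine ⟨1, norm_one, ?_⟩
      rw [h, zero_add, mul_one, norm_zero, zero_add, Complex.norm_real, Real.norm_of_nonneg hε.le]
    · have hn : 0 < ‖deriv ψ 0‖ := norm_pos_iff.2 h
      refine ⟨deriv ψ 0 / (‖deriv ψ 0‖ : ℝ), ?_, ?_⟩
      · rw [norm_div, Complex.norm_real, Real.norm_of_nonneg hn.le, div_self hn.ne']
      · have e1 : deriv ψ 0 + (ε : ℂ) * (deriv ψ 0 / (‖deriv ψ 0‖ : ℝ)) =
            ((1 + ε / ‖deriv ψ 0‖ : ℝ) : ℂ) * deriv ψ 0 := by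
          push_cast; ring
        rw [e1, norm_mul, Complex.norm_real, Real.norm_of_nonneg (by positivity)]
        field_simp
  have hdisc : IsDisc U z (‖deriv ψ 0‖ + ε) := by
    have hder : HasDerivAt (fun t => ψ t + (ε : ℂ) * u * t) (deriv ψ 0 + (ε : ℂ) * u) 0 := by
      have h1 := hψ'.fun_add ((hasDerivAt_id (0 : ℂ)).const_mul ((ε : ℂ) * u))
      rw [mul_one] at h1
      exact h1
    refine ⟨fun t => ψ t + ε * u * t, ?_, ?_, by simp [hψ0], ?_⟩
    · exact hψd.fun_add ((differentiableOn_id).const_mul _)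
    · intro t ht
      apply hth (ψ t) (by rw [hψp t ht]; exact hφ t ht)
      rw [mem_ball, dist_eq_norm, add_sub_cancel_left, norm_mul, norm_mul, hu1, mul_one,
        Complex.norm_real, Real.norm_of_nonneg hε.le]
      rw [mem_ball_zero_iff] at ht
      nlinarith [norm_nonneg t]
    · rw [hder.deriv, hu2]
  have h1 : ‖deriv ψ 0‖ + ε ≤ Mx U z := le_csSup (bdd hU z) hdisc
  rw [hchain, norm_mul]
  exact mul_le_mul_of_nonneg_left (by linarith) (norm_nonneg _)

/-- Exponential expansion. -/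
theorem expand {p : ℂ[X]} {U K : Set ℂ} {R ε : ℝ} (hUo : IsOpen U) (hU : U ⊆ ball 0 R)
    (hcv : ∀ c, (derivative p).eval c = 0 → p.eval c ∉ U) (hε : 0 < ε)
    (hth : ∀ w, p.eval w ∈ U → ball w ε ⊆ U) (hKc : IsCompact K) (hKU : K ⊆ U)
    (hK : ∀ z ∈ K, p.eval z ∈ K) : ∃ C q : ℝ, 0 < C ∧ 0 < q ∧ q < 1 ∧
      ∀ z ∈ K, ∀ n : ℕ, C ≤ q ^ n * ‖deriv (fun w => p.eval w)^[n] z‖ := by
  set f : ℂ → ℂ := fun w => p.eval w with hf
  have hfd : Differentiable ℂ f := fun z => p.differentiable z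
  set R' : ℝ := max R ε with hR'
  have hR'0 : 0 < R' := lt_max_of_lt_right hε
  have hU' : U ⊆ ball 0 R' := hU.trans (ball_subset_ball (le_max_left _ _))
  obtain ⟨δ, hδ, hδU⟩ := hKc.exists_thickening_subset_open hUo hKU
  have hball : ∀ z ∈ K, ball z δ ⊆ U := fun z hz =>
    (ball_subset_thickening hz δ).trans hδU
  set q : ℝ := 1 - ε / (2 * R') with hq
  have hεR : ε / (2 * R') ≤ 1 / 2 := by
    rw [div_le_div_iff₀ (by positivity) (by norm_num)]
    have := le_max_right R ε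
    linarith
  have hq0 : 0 < q := by rw [hq]; linarith
  have hq1 : q < 1 := by
    have : 0 < ε / (2 * R') := by positivity
    rw [hq]; linarith
  have hMle : ∀ z ∈ U, Mx U z ≤ 2 * R' := fun z hz =>
    csSup_le ⟨0, isDisc_zero hz⟩ fun m hm => isDisc_le hU' hm
  have hstep : ∀ z ∈ K, Mx U (f z) ≤ q * ‖deriv f z‖ * Mx U z := by
    intro z hz
    have h1 := Mx_step hU' hcv hε hth (hKU (hK z hz))
    have h2 : deriv f z = (derivative p).eval z := p.deriv
    have h3 : Mx U z - ε ≤ q * Mx U z := by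
      have h4 := hMle z (hKU hz)
      have h5 : ε / (2 * R') * Mx U z ≤ ε := by
        rw [div_mul_eq_mul_div, div_le_iff₀ (by positivity)]
        exact mul_le_mul_of_nonneg_left h4 hε.le
      rw [hq]
      linarith
    rw [h2]
    calc Mx U (f z) ≤ ‖(derivative p).eval z‖ * (Mx U z - ε) := h1
      _ ≤ ‖(derivative p).eval z‖ * (q * Mx U z) := mul_le_mul_of_nonneg_left h3 (norm_nonneg _)
      _ = q * ‖(derivative p).eval z‖ * Mx U z := by ring
  have hiter : ∀ n : ℕ, ∀ z ∈ K, Mx U (f^[n] z) ≤ q ^ n * ‖deriv f^[n] z‖ * Mx U z := by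
    intro n
    induction n with
    | zero =>
      intro z _
      have : f^[0] = id := rfl
      rw [this, deriv_id]
      simp
    | succ n ih =>
      intro z hz
      have h1 := hstep _ (iter_mem hK n z hz)
      rw [deriv_iter_succ hfd, norm_mul, Function.iterate_succ_apply']
      calc Mx U (f (f^[n] z)) ≤ q * ‖deriv f (f^[n] z)‖ * Mx U (f^[n] z) := h1
        _ ≤ q * ‖deriv f (f^[n] z)‖ * (q ^ n * ‖deriv f^[n] z‖ * Mx U z) :=
          mul_le_mul_of_nonneg_left (ih z hz) (by positivity)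
        _ = q ^ (n + 1) * (‖deriv f (f^[n] z)‖ * ‖deriv f^[n] z‖) * Mx U z := by
          rw [pow_succ]; ring
  refine ⟨δ / (2 * R'), q, by positivity, hq0, hq1, ?_⟩
  intro z hz n
  have h1 := hiter n z hz
  have h2 : δ ≤ Mx U (f^[n] z) :=
    le_csSup (bdd hU' _) (isDisc_ball hδ (hball _ (iter_mem hK n z hz)))
  have h3 := hMle z (hKU hz)
  rw [div_le_iff₀ (by positivity)]
  calc δ ≤ Mx U (f^[n] z) := h2
    _ ≤ q ^ n * ‖deriv f^[n] z‖ * Mx U z := h1
    _ ≤ q ^ n * ‖deriv f^[n] z‖ * (2 * R') := mul_le_mul_of_nonneg_left h3 (by positivity)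

end Pool.Agent.N251.AD
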