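import Mathlib
import Pool.Agent.H713R5.QJ.TVFAM
import Pool.Agent.N251.AD.Core8

/-! Induction on the number of critical points which are not attracted. -/

set_option autoImplicit false

open Topology Filter Metric Set Polynomial MeasureTheory
open Pool.Agent.H713R3.ZA Pool.Agent.H713R5.QJ

namespace Pool.Agent.N251.AD

open Classical in
/-- induction on the number of bad critical points -/
theorem claim2 {a : ℂ} {n : ℕ} {B c₀ : ℝ} (hc₀ : 0 < c₀)
    (hcore : ∀ (x₁ : PE n) (n₀ : ℝ), 0 < n₀ →
      (∀ x : PE n, Pool.Agent.H713R3.ZA.Dl a n x₁ x ≤ n₀ → x ∈ ball (0 : PE n) B) →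
      (∃ j : Fin n, ¬ Good (fx a n x₁) (x₁ (some j))) → ∀ η : ℝ, 0 < η →
      ∃ x : PE n, Pool.Agent.H713R3.ZA.Dl a n x₁ x ≤ n₀ ∧
        ar a n x + c₀ / 2 * Pool.Agent.H713R3.ZA.Dl a n x₁ x ≤ ar a n x₁ + η ∧
        (Pool.Agent.H713R3.ZA.Dl a n x₁ x = n₀ ∨
          (∀ i : Fin n, Good (fx a n x₁) (x₁ (some i)) → Good (fx a n x) (x (some i))) ∧
          ∃ j : Fin n, ¬ Good (fx a n x₁) (x₁ (some j)) ∧ Good (fx a n x) (x (some j))))
    (m : ℕ) : ∀ (x : PE n) (s : ℝ), 0 < s →
      (Finset.univ.filter (fun i : Fin n => ¬ Good (fx a n x) (x (some i)))).card ≤ m →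
      (∀ y : PE n, (∀ j : ℕ, ‖(fam a n y).coeff j - (fam a n x).coeff j‖ ≤ m * s) →
        y ∈ ball (0 : PE n) B) → ∀ η : ℝ, 0 < η →
      ∃ z : PE n, (∀ j : ℕ, ‖(fam a n z).coeff j - (fam a n x).coeff j‖ ≤ m * s) ∧
        ((∀ i : Fin n, Good (fx a n z) (z (some i))) ∨
          ar a n z + c₀ / 2 * s ^ 2 ≤ ar a n x + η) := by
  induction m with
  | zero =>
    intro x s hs hcard hR η hη
    refine ⟨x, ?_, Or.inl ?_⟩
    · intro j
      rw [sub_self, norm_zero]
      simp
    · intro i
      by_contra hi
      have : i ∈ Finset.univ.filter (fun i : Fin n => ¬ Good (fx a n x) (x (some i))) := by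
        rw [Finset.mem_filter]
        exact ⟨Finset.mem_univ _, hi⟩
      have h2 := Finset.card_pos.2 ⟨i, this⟩
      omega
  | succ m ih =>
    intro x s hs hcard hR η hη
    have hm0 : (0 : ℝ) ≤ m := Nat.cast_nonneg m
    have hcast : ((m + 1 : ℕ) : ℝ) = m + 1 := by push_cast; ring
    rw [hcast]
    by_cases hall : ∀ i : Fin n, Good (fx a n x) (x (some i))
    · refine ⟨x, ?_, Or.inl hall⟩
      intro j
      rw [sub_self, norm_zero]
      positivity
    · push Not at hall
      have hsq : Real.sqrt (s ^ 2) = s := Real.sqrt_sq hs.le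
      obtain ⟨x', hD, hAr, hcase⟩ := hcore x (s ^ 2) (by positivity) (by
        intro y hy
        apply hR
        intro j
        refine (TVFAM.coeff_of_Dl a n x y hy j).trans ?_
        rw [hsq, hcast]
        nlinarith) hall (η / 2) (by positivity)
      have hDc : ∀ j : ℕ, ‖(fam a n x').coeff j - (fam a n x).coeff j‖ ≤ s := by
        intro j
        have h2 := TVFAM.coeff_of_Dl a n x x' hD j
        rwa [hsq] at h2
      rcases hcase with hcase | ⟨hgood, j₀, hj₀, hj₀'⟩
      · refine ⟨x', fun j => (hDc j).trans (by nlinarith), Or.inr ?_⟩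
        rw [hcase] at hAr
        linarith
      · have hcard' : (Finset.univ.filter
            (fun i : Fin n => ¬ Good (fx a n x') (x' (some i)))).card ≤ m := by
          have hlt : (Finset.univ.filter
              (fun i : Fin n => ¬ Good (fx a n x') (x' (some i)))).card <
              (Finset.univ.filter (fun i : Fin n => ¬ Good (fx a n x) (x (some i)))).card := by
            apply Finset.card_lt_card
            rw [Finset.ssubset_iff_of_subset]
            · refine ⟨j₀, ?_, ?_⟩
              · rw [Finset.mem_filter]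
                exact ⟨Finset.mem_univ _, hj₀⟩
              · rw [Finset.mem_filter]
                rintro ⟨-, h⟩
                exact h hj₀'
            · intro i hi
              rw [Finset.mem_filter] at hi ⊢
              refine ⟨Finset.mem_univ _, ?_⟩
              intro h
              exact hi.2 (hgood i h)
          omega
        have hDl0 : 0 ≤ Pool.Agent.H713R3.ZA.Dl a n x x' := by
          unfold Pool.Agent.H713R3.ZA.Dl
          exact Finset.sum_nonneg fun _ _ => by positivity
        obtain ⟨z, hzc, hz⟩ := ih x' s hs hcard' (by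
          intro y hy
          apply hR
          intro j
          have h1 := hy j
          have h2 := hDc j
          have h3 : ‖(fam a n y).coeff j - (fam a n x).coeff j‖ ≤
              ‖(fam a n y).coeff j - (fam a n x').coeff j‖ +
                ‖(fam a n x').coeff j - (fam a n x).coeff j‖ := by
            have := norm_add_le ((fam a n y).coeff j - (fam a n x').coeff j)
              ((fam a n x').coeff j - (fam a n x).coeff j)
            rwa [sub_add_sub_cancel] at this
          rw [hcast]
          linarith) (η / 2) (by positivity)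
        refine ⟨z, ?_, ?_⟩
        · intro j
          have h1 := hzc j
          have h2 := hDc j
          have h3 : ‖(fam a n z).coeff j - (fam a n x).coeff j‖ ≤
              ‖(fam a n z).coeff j - (fam a n x').coeff j‖ +
                ‖(fam a n x').coeff j - (fam a n x).coeff j‖ := by
            have := norm_add_le ((fam a n z).coeff j - (fam a n x').coeff j)
              ((fam a n x').coeff j - (fam a n x).coeff j)
            rwa [sub_add_sub_cancel] at this
          linarith
        · rcases hz with hz | hz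
          · exact Or.inl hz
          · right
            have := mul_nonneg hc₀.le hDl0
            linarith

/-- The dichotomy in the family. -/
theorem vfam2 (hcore : StCORED) (a : ℂ) (n : ℕ) (A' : ℝ) (ha : a ≠ 0) (hn : 1 ≤ n)
    (hA' : 0 < A') : ∃ c : ℝ, 0 < c ∧
    ∀ (x₁ : PE n) (s : ℝ), (∀ j : ℕ, ‖(fam a n x₁).coeff j‖ ≤ A') → 0 < s → s ≤ 1 →
      ∃ x : PE n, (∀ j : ℕ, ‖(fam a n x).coeff j - (fam a n x₁).coeff j‖ ≤ s) ∧
        ((∀ i : Fin n, Good (fx a n x) (x (some i))) ∨ ar a n x + c * s ^ 2 ≤ ar a n x₁) := by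
  classical
  have ha' : 0 < ‖a‖ := norm_pos_iff.2 ha
  have hn0 : (0 : ℝ) < n := by exact_mod_cast hn
  obtain ⟨c₀, hc₀, hc⟩ := hcore a n ((A' + 1) / ‖a‖ + (A' + 1) + 2) ha hn (by positivity)
  refine ⟨c₀ / (4 * n ^ 2), by positivity, ?_⟩
  intro x₁ s hcoef hs hs1
  have hns : (n : ℝ) * (s / n) = s := by field_simp
  obtain ⟨z, hzc, hz⟩ := claim2 hc₀ hc n x₁ (s / n) (by positivity) (by
    refine (Finset.card_le_univ _).trans ?_
    simp) (by
    intro y hy
    apply TVFAM.bdd n ha (by positivity)
    intro j _
    have h1 := (hy j).trans (hns.le.trans hs1)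
    have h2 := hcoef j
    have h4 : ‖(fam a n y).coeff j‖ ≤
        ‖(fam a n y).coeff j - (fam a n x₁).coeff j‖ + ‖(fam a n x₁).coeff j‖ := by
      have := norm_add_le ((fam a n y).coeff j - (fam a n x₁).coeff j) ((fam a n x₁).coeff j)
      rwa [sub_add_cancel] at this
    linarith) (c₀ / (4 * n ^ 2) * s ^ 2) (by positivity)
  refine ⟨z, fun j => (hzc j).trans hns.le, ?_⟩
  rcases hz with hz | hz
  · exact Or.inl hz
  · right
    have h1 : c₀ / 2 * (s / n) ^ 2 = 2 * (c₀ / (4 * n ^ 2) * s ^ 2) := by
      field_simp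
      ring
    rw [h1] at hz
    linarith

end Pool.Agent.N251.AD
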