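import Mathlib
import Pool.Agent.H713R5.QJ.Main2
import Pool.Agent.H713R5.QJ.TVFIN
import Pool.Agent.N251.AD.Fam

/-! The area of the Julia set drops at every scale at which there is no hyperbolic polynomial. -/

set_option autoImplicit false

open Topology Filter Metric Set Polynomial MeasureTheory
open Pool.Agent.H713R3.ZA Pool.Agent.H713R5.QJ

namespace Pool.Agent.N251.AD

theorem js_le (T : ℂ[X]) : volume (JS T) ≤ volume {z : ℂ | ¬ Good (ev T) z} :=
  measure_mono fun _ hz h => hz (Or.inl h)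

theorem fin_main (n : ℕ) (A : ℝ) (hn : 1 ≤ n) (hA : 1 ≤ A) : ∃ c : ℝ, 0 < c ∧
    ∀ T : ℂ[X], T.natDegree = n + 1 → (∀ j : ℕ, ‖T.coeff j‖ ≤ A) → 1 / A ≤ ‖T.leadingCoeff‖ →
    ∀ r : ℝ, 0 < r → r ≤ 1 →
      ∃ S : ℂ[X], S.natDegree = T.natDegree ∧ S.leadingCoeff = T.leadingCoeff ∧
        (∀ j : ℕ, ‖S.coeff j - T.coeff j‖ < r) ∧
        ((∀ c : ℂ, (derivative S).eval c = 0 → Good (ev S) c) ∨
          volume (JS S) + ENNReal.ofReal (c * r ^ 2) ≤ volume (JS T)) := by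
  have hA0 : 0 < A := by linarith
  obtain ⟨c₁, hc₁, hV⟩ := vfam2 (cored hh) 1 n (A ^ (n + 2) * (A + 1)) one_ne_zero hn
    (by positivity)
  set K : ℝ := A ^ (n + 2) with hK
  have hK1 : 1 ≤ K := one_le_pow₀ hA
  have hK0 : 0 < K := by linarith
  refine ⟨c₁ / (8 * K ^ 2 * A ^ 2), by positivity, ?_⟩
  intro T hT hTA hTl r hr hr1
  have hfin := VFIN.js_fin T (by omega)
  obtain ⟨ar₀, har⟩ : ∃ ar : ℝ, ar = (volume (JS T)).toReal := ⟨_, rfl⟩
  have har0 : 0 ≤ ar₀ := by rw [har]; exact ENNReal.toReal_nonneg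
  have hvol : volume (JS T) = ENNReal.ofReal ar₀ := by
    rw [har, ENNReal.ofReal_toReal hfin.ne]
  set s : ℝ := r / (2 * K) with hs
  have hs0 : 0 < s := by positivity
  have hs1 : s ≤ 1 := by
    rw [hs, div_le_one (by positivity)]
    linarith
  set e : ℝ := min (r / 4) (c₁ * s ^ 2 / (2 * A ^ 2)) with he
  have he0 : 0 < e := lt_min (by positivity) (by positivity)
  have her : e ≤ r / 4 := min_le_left _ _
  have hec : e ≤ c₁ * s ^ 2 / (2 * A ^ 2) := min_le_right _ _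
  obtain ⟨S₁, hS1d, hS1l, hS1c, hS1v⟩ := apxc T (by omega) e he0
  rw [hvol, ← ENNReal.ofReal_add har0 he0.le] at hS1v
  -- the scaling
  obtain ⟨l, hl⟩ := IsAlgClosed.exists_pow_nat_eq T.leadingCoeff (by omega : 0 < n)
  have hTl0 : T.leadingCoeff ≠ 0 := by
    rw [← norm_pos_iff]
    exact lt_of_lt_of_le (by positivity) hTl
  have hl0 : l ≠ 0 := by
    rintro rfl
    rw [zero_pow (by omega)] at hl
    exact hTl0 hl.symm
  have hln : ‖l‖ ^ n = ‖T.leadingCoeff‖ := by rw [← norm_pow, hl]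
  have hlA : ‖l‖ ≤ A := VFIN.le_of_pow hA hn (by rw [hln]; exact hTA _)
  have hlA' : ‖l‖⁻¹ ≤ A := by
    apply VFIN.le_of_pow hA hn
    rw [inv_pow, hln]
    have h1 : 0 < ‖T.leadingCoeff‖ := norm_pos_iff.2 hTl0
    rw [inv_le_comm₀ h1 hA0, ← one_div]
    exact hTl
  have hlp : 0 < ‖l‖ := norm_pos_iff.2 hl0
  -- the monic polynomial
  obtain ⟨k1, k2, -, -, k5⟩ := scl_holds l S₁ hl0
  have hS1top : S₁.coeff (n + 1) = T.leadingCoeff := by
    rw [← hS1l]
    have : S₁.natDegree = n + 1 := by rw [hS1d, hT]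
    rw [Polynomial.leadingCoeff, this]
  have hS2top : (sc l S₁).coeff (n + 1) = 1 := by
    rw [k2, hS1top, ← hl, pow_succ, inv_pow]
    field_simp
  obtain ⟨x₁, hx₁⟩ := surj_holds n (sc l S₁) hn (by rw [k1, hS1d, hT])
  rw [hS2top] at hx₁
  have hfx : fx 1 n x₁ = ev (sc l S₁) := by
    funext w
    unfold fx ev
    rw [hx₁]
  have hS1A : ∀ j, ‖S₁.coeff j‖ ≤ A + 1 := by
    intro j
    have h1 : S₁.coeff j = (S₁.coeff j - T.coeff j) + T.coeff j := by ring
    rw [h1]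
    refine (norm_add_le _ _).trans ?_
    have := hS1c j
    have := hTA j
    linarith
  have hcoef : ∀ j, ‖(fam 1 n x₁).coeff j‖ ≤ A ^ (n + 2) * (A + 1) := by
    intro j
    rw [hx₁]
    rcases Nat.lt_or_ge (n + 1) j with hj | hj
    · rw [coeff_eq_zero_of_natDegree_lt (by rw [k1, hS1d, hT]; exact hj), norm_zero]
      positivity
    · rw [k2, norm_mul, norm_mul, norm_pow, norm_inv]
      have h1 : ‖l‖ * ‖l‖⁻¹ ^ j ≤ A ^ (n + 2) := by
        calc ‖l‖ * ‖l‖⁻¹ ^ j ≤ A * A ^ j :=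
              mul_le_mul hlA (pow_le_pow_left₀ (by positivity) hlA' _) (by positivity) hA0.le
          _ = A ^ (j + 1) := by rw [pow_succ]; ring
          _ ≤ A ^ (n + 2) := pow_le_pow_right₀ hA (by omega)
      exact mul_le_mul h1 (hS1A j) (norm_nonneg _) (by positivity)
  obtain ⟨x, hx1, hx2⟩ := hV x₁ s hcoef hs0 hs1
  -- the result
  obtain ⟨m1, m2, m3, m4, m5⟩ := scl_holds l⁻¹ (fam 1 n x) (inv_ne_zero hl0)
  have hdeg : (sc l⁻¹ (fam 1 n x)).natDegree = n + 1 := by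
    rw [m1, natDegree_fam one_ne_zero]
  refine ⟨sc l⁻¹ (fam 1 n x), by rw [hdeg, hT], ?_, ?_, ?_⟩
  · rw [Polynomial.leadingCoeff, hdeg, m2, inv_inv, coeff_fam_top, mul_one, pow_succ, ← hl]
    field_simp
  · intro j
    rcases Nat.lt_or_ge (n + 1) j with hj | hj
    · rw [coeff_eq_zero_of_natDegree_lt (by rw [hdeg]; exact hj),
        coeff_eq_zero_of_natDegree_lt (by rw [hT]; exact hj), sub_zero, norm_zero]
      exact hr
    · have e1 : (sc l⁻¹ (fam 1 n x)).coeff j - S₁.coeff j =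
          (l⁻¹ * l ^ j) * ((fam 1 n x).coeff j - (fam 1 n x₁).coeff j) := by
        rw [m2, hx₁, k2, inv_inv, mul_sub]
        congr 1
        have h1 : l⁻¹ * l ^ j * (l * l⁻¹ ^ j * S₁.coeff j) =
            (l⁻¹ * l) * (l ^ j * l⁻¹ ^ j) * S₁.coeff j := by ring
        rw [h1, inv_mul_cancel₀ hl0, ← mul_pow, mul_inv_cancel₀ hl0, one_pow, one_mul, one_mul]
      have e2 : ‖(sc l⁻¹ (fam 1 n x)).coeff j - S₁.coeff j‖ ≤ K * s := by
        rw [e1, norm_mul, norm_mul, norm_inv, norm_pow]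
        have h1 : ‖l‖⁻¹ * ‖l‖ ^ j ≤ A ^ (n + 2) := by
          calc ‖l‖⁻¹ * ‖l‖ ^ j ≤ A * A ^ j :=
                mul_le_mul hlA' (pow_le_pow_left₀ hlp.le hlA _) (by positivity) hA0.le
            _ = A ^ (j + 1) := by rw [pow_succ]; ring
            _ ≤ A ^ (n + 2) := pow_le_pow_right₀ hA (by omega)
        exact mul_le_mul h1 (hx1 j) (norm_nonneg _) (by positivity)
      have e3 : K * s = r / 2 := by
        rw [hs]
        field_simp
      have e4 : (sc l⁻¹ (fam 1 n x)).coeff j - T.coeff j =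
          ((sc l⁻¹ (fam 1 n x)).coeff j - S₁.coeff j) + (S₁.coeff j - T.coeff j) := by ring
      rw [e4]
      refine lt_of_le_of_lt (norm_add_le _ _) ?_
      have := hS1c j
      rw [e3] at e2
      linarith
  · rcases hx2 with hx2 | hx2
    · left
      intro c hc
      have h1 : l⁻¹ * (l * c) = c := by rw [← mul_assoc, inv_mul_cancel₀ hl0, one_mul]
      have h2 := (m4 (l * c)).1 (by rw [h1]; exact hc)
      have h3 : deriv (fx 1 n x) (l * c) = 0 := by
        have : fx 1 n x = fun w => (fam 1 n x).eval w := rfl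
        rw [this, Polynomial.deriv]
        exact h2
      obtain ⟨i, hi⟩ := exists_crit one_ne_zero h3
      have h4 := hx2 i
      rw [← hi] at h4
      have h5 := (m3 (l * c)).2 h4
      rwa [h1] at h5
    · right
      have hL2 : 0 < ‖l‖ ^ 2 := by positivity
      -- the area of the bad set of `S₁`
      obtain ⟨b₁, hb₁⟩ : ∃ b : ℝ, b = (volume {z : ℂ | ¬ Good (ev S₁) z}).toReal := ⟨_, rfl⟩
      have hb₁fin : volume {z : ℂ | ¬ Good (ev S₁) z} ≠ ⊤ := (hS1v.trans_lt ENNReal.ofReal_lt_top).ne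
      have hb₁le : b₁ ≤ ar₀ + e := by
        rw [hb₁]
        exact ENNReal.toReal_le_of_le_ofReal (by positivity) hS1v
      have hx₁ar : ar 1 n x₁ = ‖l‖ ^ 2 * b₁ := by
        unfold ar
        rw [hfx, k5, ENNReal.toReal_mul, ENNReal.toReal_ofReal hL2.le, hb₁]
      have hvx : volume {z : ℂ | ¬ Good (fx 1 n x) z} ≠ ⊤ := by
        have h1 := APX.escape_radius (fam 1 n x) (by rw [natDegree_fam one_ne_zero]; omega)
        obtain ⟨R, hR1, hR⟩ := h1
        have h2 : {z : ℂ | ¬ Good (fx 1 n x) z} ⊆ closedBall (0 : ℂ) R := by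
          intro w hw
          rw [mem_closedBall_zero_iff]
          by_contra hcon
          push Not at hcon
          apply hw
          exact APX.good_big (ev (fam 1 n x)) R hR1
            (fun w hw => hR (fam 1 n x) rfl rfl
              (fun j => by rw [sub_self, norm_zero]; exact zero_le_one) w hw) w hcon.le
        exact ((measure_mono h2).trans_lt measure_closedBall_lt_top).ne
      have hxS : volume {z : ℂ | ¬ Good (ev (sc l⁻¹ (fam 1 n x))) z} =
          ENNReal.ofReal ((‖l‖ ^ 2)⁻¹ * ar 1 n x) := by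
        rw [m5, ENNReal.ofReal_mul (by positivity), norm_inv, inv_pow]
        congr 1
        unfold ar
        rw [ENNReal.ofReal_toReal hvx]
        rfl
      have hdrop : (‖l‖ ^ 2)⁻¹ * ar 1 n x ≤ b₁ - c₁ * s ^ 2 / A ^ 2 := by
        have h1 : ar 1 n x ≤ ‖l‖ ^ 2 * b₁ - c₁ * s ^ 2 := by
          rw [hx₁ar] at hx2
          linarith
        have h2 : (‖l‖ ^ 2)⁻¹ * ar 1 n x ≤ (‖l‖ ^ 2)⁻¹ * (‖l‖ ^ 2 * b₁ - c₁ * s ^ 2) :=
          mul_le_mul_of_nonneg_left h1 (by positivity)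
        have h3 : (‖l‖ ^ 2)⁻¹ * (‖l‖ ^ 2 * b₁ - c₁ * s ^ 2) = b₁ - c₁ * s ^ 2 / ‖l‖ ^ 2 := by
          field_simp
        have h4 : c₁ * s ^ 2 / A ^ 2 ≤ c₁ * s ^ 2 / ‖l‖ ^ 2 :=
          div_le_div_of_nonneg_left (by positivity) hL2 (pow_le_pow_left₀ hlp.le hlA 2)
        linarith
      have hfinal : (‖l‖ ^ 2)⁻¹ * ar 1 n x + c₁ / (8 * K ^ 2 * A ^ 2) * r ^ 2 ≤ ar₀ := by
        have h1 : c₁ / (8 * K ^ 2 * A ^ 2) * r ^ 2 = c₁ * s ^ 2 / (2 * A ^ 2) := by
          rw [hs]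
          field_simp
          ring
        have h2 : c₁ * s ^ 2 / A ^ 2 = 2 * (c₁ * s ^ 2 / (2 * A ^ 2)) := by
          field_simp
        rw [h1]
        linarith
      have har1 : 0 ≤ ar 1 n x := ENNReal.toReal_nonneg
      calc volume (JS (sc l⁻¹ (fam 1 n x))) + ENNReal.ofReal (c₁ / (8 * K ^ 2 * A ^ 2) * r ^ 2)
          ≤ ENNReal.ofReal ((‖l‖ ^ 2)⁻¹ * ar 1 n x) +
            ENNReal.ofReal (c₁ / (8 * K ^ 2 * A ^ 2) * r ^ 2) := by
            rw [← hxS]
            exact add_le_add_left (js_le _) _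
        _ = ENNReal.ofReal ((‖l‖ ^ 2)⁻¹ * ar 1 n x + c₁ / (8 * K ^ 2 * A ^ 2) * r ^ 2) :=
            (ENNReal.ofReal_add (by positivity) (by positivity)).symm
        _ ≤ volume (JS T) := by
            rw [hvol]
            exact ENNReal.ofReal_le_ofReal hfinal

end Pool.Agent.N251.AD
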