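import Mathlib
import Pool.Agent.N251.AD.Expand
import Pool.Agent.H713R5.QJ.TAPX
import Pool.Agent.H713R5.QJ.TATM
import Pool.Agent.H713R5.QJ.TOPG
import Pool.Agent.H713R5.QJ.TKO0

/-! The bad set of a hyperbolic polynomial has zero area. -/

set_option autoImplicit false

open Topology Filter Metric Set MeasureTheory Polynomial

namespace Pool.Agent.N251.AD

open Pool.Agent.H713R5.QJ

/-- local trap near a sink -/
theorem sink_trap {g : ℂ → ℂ} (hg : Differentiable ℂ g) {x : ℂ} (hx : g x = x)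
    (hm : ‖deriv g x‖ < 1) :
    ∃ r : ℝ, 0 < r ∧ (∀ z ∈ closedBall x r, g z ∈ ball x r) ∧
      ∀ z ∈ closedBall x r, Tendsto (fun k : ℕ => g^[k] z) atTop (𝓝 x) := by
  obtain ⟨θ, hθ1, hθ2⟩ := exists_between hm
  have hθ0 : 0 < θ := (norm_nonneg _).trans_lt hθ1
  have h1 := (hg x).hasDerivAt.isLittleO.def (sub_pos.2 hθ1)
  have h2 : ∀ᶠ z in 𝓝 x, ‖g z - x‖ ≤ θ * ‖z - x‖ := by
    filter_upwards [h1] with z hz
    have h3 : g z - x = (g z - g x - (z - x) • deriv g x) + (z - x) * deriv g x := by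
      rw [hx, smul_eq_mul]; ring
    rw [h3]
    have h4 := norm_add_le (g z - g x - (z - x) • deriv g x) ((z - x) * deriv g x)
    rw [norm_mul (z - x)] at h4
    linarith
  obtain ⟨ρ, hρ, hb⟩ := Metric.eventually_nhds_iff_ball.1 h2
  have hb' : ∀ z ∈ closedBall x (ρ / 2), ‖g z - x‖ ≤ θ * ‖z - x‖ := fun z hz =>
    hb z (closedBall_subset_ball (by linarith) hz)
  have hmap : ∀ z ∈ closedBall x (ρ / 2), g z ∈ ball x (ρ / 2) := by
    intro z hz
    have h3 := hb' z hz
    rw [mem_closedBall, dist_eq_norm] at hz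
    rw [mem_ball, dist_eq_norm]
    calc ‖g z - x‖ ≤ θ * ‖z - x‖ := h3
      _ ≤ θ * (ρ / 2) := mul_le_mul_of_nonneg_left hz hθ0.le
      _ < 1 * (ρ / 2) := mul_lt_mul_of_pos_right hθ2 (by linarith)
      _ = ρ / 2 := one_mul _
  refine ⟨ρ / 2, by linarith, hmap, fun z hz => ?_⟩
  have h3 : ∀ k : ℕ, g^[k] z ∈ closedBall x (ρ / 2) ∧ ‖g^[k] z - x‖ ≤ θ ^ k * ‖z - x‖ := by
    intro k
    induction k with
    | zero => exact ⟨hz, by simp⟩
    | succ k ih =>
      rw [Function.iterate_succ_apply']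
      refine ⟨ball_subset_closedBall (hmap _ ih.1), ?_⟩
      calc ‖g (g^[k] z) - x‖ ≤ θ * ‖g^[k] z - x‖ := hb' _ ih.1
        _ ≤ θ * (θ ^ k * ‖z - x‖) := mul_le_mul_of_nonneg_left ih.2 hθ0.le
        _ = θ ^ (k + 1) * ‖z - x‖ := by rw [pow_succ]; ring
  rw [tendsto_iff_norm_sub_tendsto_zero]
  refine squeeze_zero (fun k => norm_nonneg _) (fun k => (h3 k).2) ?_
  have h4 := (tendsto_pow_atTop_nhds_zero_of_lt_one hθ0.le hθ2).mul_const ‖z - x‖
  rwa [zero_mul] at h4

/-- a trap which catches all the critical points -/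
theorem trap_null {p : ℂ[X]} {C₀ T₀ : Set ℂ} {R : ℝ} (hC : IsClosed C₀) (hT : IsOpen T₀)
    (hTC : T₀ ⊆ C₀) (hmap : ∀ z ∈ C₀, p.eval z ∈ T₀) (hbig : ∀ z : ℂ, R ≤ ‖z‖ → z ∈ T₀)
    (hcrit : ∀ c, (derivative p).eval c = 0 → ∃ k : ℕ, (fun w => p.eval w)^[k] c ∈ C₀)
    (hp : derivative p ≠ 0) :
    volume {z : ℂ | ∀ n : ℕ, (fun w => p.eval w)^[n] z ∉ T₀} = 0 := by
  classical
  set f : ℂ → ℂ := fun w => p.eval w with hf
  have hfd : Differentiable ℂ f := fun z => p.differentiable z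
  have hfc : ∀ n : ℕ, Continuous f^[n] := fun n => (hfd.continuous).iterate n
  have hm1 : ∀ z : ℂ, z ∈ C₀ → ∀ m : ℕ, f^[m] z ∈ C₀ := by
    intro z hz m
    induction m with
    | zero => exact hz
    | succ m ih =>
      rw [Function.iterate_succ_apply']
      exact hTC (hmap _ ih)
  have hm2 : ∀ z : ℂ, ∀ n m : ℕ, n ≤ m → f^[n] z ∈ C₀ → f^[m] z ∈ C₀ := by
    intro z n m hnm hz
    obtain ⟨k, rfl⟩ := Nat.exists_eq_add_of_le hnm
    rw [add_comm, Function.iterate_add_apply]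
    exact hm1 _ hz k
  have hm3 : ∀ z : ℂ, ∀ n : ℕ, f^[n] z ∈ C₀ → f^[n + 1] z ∈ T₀ := by
    intro z n hz
    rw [Function.iterate_succ_apply']
    exact hmap _ hz
  have hk : ∀ c : ℂ, ∃ k : ℕ, (derivative p).eval c = 0 → f^[k] c ∈ C₀ := by
    intro c
    by_cases h : (derivative p).eval c = 0
    · obtain ⟨k, hk⟩ := hcrit c h
      exact ⟨k, fun _ => hk⟩
    · exact ⟨0, fun h' => absurd h' h⟩
  choose k hk using hk
  set n : ℕ := (derivative p).roots.toFinset.sup k with hn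
  have hkn : ∀ c, (derivative p).eval c = 0 → f^[n] (p.eval c) ∈ C₀ := by
    intro c hc
    have h1 : k c ≤ n := by
      refine Finset.le_sup (f := k) ?_
      rw [Multiset.mem_toFinset, mem_roots hp]
      exact hc
    have h2 := hm2 c (k c) (n + 1) (by omega) (hk c hc)
    rw [Function.iterate_succ_apply] at h2
    exact h2
  set U : Set ℂ := {z | f^[n] z ∉ C₀} with hU
  have hUo : IsOpen U := hC.isOpen_compl.preimage (hfc n)
  have hUb : U ⊆ ball 0 R := by
    intro z hz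
    rw [mem_ball_zero_iff]
    by_contra h
    exact hz (hm1 z (hTC (hbig z (not_lt.1 h))) n)
  set L : Set ℂ := {w | f^[n + 1] w ∉ T₀} with hL
  have hLb : L ⊆ closedBall 0 R := by
    intro z hz
    rw [mem_closedBall_zero_iff]
    by_contra h
    exact hz (hm3 z n (hm1 z (hTC (hbig z (not_le.1 h).le)) n))
  have hLc : IsCompact L :=
    (isCompact_closedBall 0 R).of_isClosed_subset (hT.isClosed_compl.preimage (hfc (n + 1))) hLb
  have hLU : L ⊆ U := fun w hw hw' => hw (hm3 w n hw')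
  obtain ⟨ε, hε, hεU⟩ := hLc.exists_thickening_subset_open hUo hLU
  set K : Set ℂ := {z : ℂ | ∀ n : ℕ, f^[n] z ∉ T₀} with hKdef
  have hKcl : IsClosed K := by
    have : K = ⋂ n : ℕ, f^[n] ⁻¹' T₀ᶜ := by
      ext z
      simp only [hKdef, mem_iInter]
      rfl
    rw [this]
    exact isClosed_iInter fun n => hT.isClosed_compl.preimage (hfc n)
  have hKU : K ⊆ U := fun z hz hz' => hz (n + 1) (hm3 z n hz')
  have hKc : IsCompact K :=
    (isCompact_closedBall 0 R).of_isClosed_subset hKcl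
      ((hKU.trans hUb).trans ball_subset_closedBall)
  have hK : ∀ z ∈ K, p.eval z ∈ K := by
    intro z hz m
    have := hz (m + 1)
    rwa [Function.iterate_succ_apply] at this
  obtain ⟨C, q, hC0, hq0, hq1, hexp⟩ := expand hUo hUb (fun c hc h => h (hkn c hc)) hε
    (fun w hw => (ball_subset_thickening (E := L) (x := w) (by
      intro h
      have : f^[n + 1] w ∈ C₀ := hTC h
      rw [Function.iterate_succ_apply] at this
      exact hw this) ε).trans hεU) hKc hKU hK
  exact null_of_expand hfd hKc hK hC0 hq0 hq1 hexp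

/-- The bad set of a hyperbolic polynomial has zero area. -/
theorem hyp_null (T : ℂ[X]) (hd : 2 ≤ T.natDegree)
    (h : ∀ c, (derivative T).eval c = 0 → Good (ev T) c) :
    volume {z : ℂ | ¬ Good (ev T) z} = 0 := by
  classical
  set f : ℂ → ℂ := ev T with hf
  have hfd : Differentiable ℂ f := APX.ev_diff T
  -- a common period
  have hP : ∀ c : ℂ, ∃ P : ℕ, 0 < P ∧ ((derivative T).eval c = 0 →
      Tendsto (fun k : ℕ => ‖f^[k] c‖) atTop atTop ∨ AT f P c) := by
    intro c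
    by_cases hc : (derivative T).eval c = 0
    · rcases h c hc with h1 | ⟨P, hP, h1⟩
      · exact ⟨1, one_pos, fun _ => Or.inl h1⟩
      · exact ⟨P, hP, fun _ => Or.inr h1⟩
    · exact ⟨1, one_pos, fun h' => absurd h' hc⟩
  choose P hP0 hP using hP
  have hTd : derivative T ≠ 0 := by
    intro h0
    have := derivative_eq_zero.1 h0
    omega
  set N : ℕ := ∏ c ∈ (derivative T).roots.toFinset, P c with hN
  have hN0 : 0 < N := Finset.prod_pos fun c _ => hP0 c
  have hcrit : ∀ c, (derivative T).eval c = 0 →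
      Tendsto (fun k : ℕ => ‖f^[k] c‖) atTop atTop ∨ AT f N c := by
    intro c hc
    rcases hP c hc with h1 | h1
    · exact Or.inl h1
    · right
      have h2 : P c ∣ N := Finset.dvd_prod_of_mem P (by
        rw [Multiset.mem_toFinset, mem_roots hTd]
        exact hc)
      obtain ⟨k, hk⟩ := h2
      have hk0 : 0 < k := by
        rcases Nat.eq_zero_or_pos k with h3 | h3
        · rw [h3, mul_zero] at hk
          omega
        · exact h3
      rw [hk]
      exact atm_holds f (P c) k c hfd (hP0 c) hk0 h1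
  -- the iterate
  obtain ⟨p, hp, hpd⟩ := APX.ev_iter T N
  have hgp : (fun w => p.eval w) = f^[N] := funext fun w => (hp w).symm
  have hpd2 : 2 ≤ p.natDegree := by
    rw [hpd]
    calc 2 ≤ T.natDegree := hd
      _ = T.natDegree ^ 1 := (pow_one _).symm
      _ ≤ T.natDegree ^ N := Nat.pow_le_pow_right (by omega) hN0
  have hp' : derivative p ≠ 0 := by
    intro h0
    have := derivative_eq_zero.1 h0
    omega
  have hko := ko0_holds f N hfd hN0
  have hesc : ∀ (u : ℂ) (i : ℕ), Tendsto (fun k : ℕ => ‖f^[k] (f^[i] u)‖) atTop atTop →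
      Tendsto (fun k : ℕ => ‖f^[k] u‖) atTop atTop := by
    intro u i h1
    refine (tendsto_add_atTop_iff_nat i).1 ?_
    refine h1.congr fun k => ?_
    rw [Function.iterate_add_apply]
  have hAT : ∀ (u : ℂ) (i : ℕ), AT f N (f^[i] u) → AT f N u := by
    intro u i
    induction i with
    | zero => exact fun h1 => h1
    | succ i ih =>
      intro h1
      rw [Function.iterate_succ_apply'] at h1
      exact ih ((hko.2.2.1 _).1 h1)
  have hpcrit : ∀ w, (derivative p).eval w = 0 →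
      Tendsto (fun k : ℕ => ‖f^[k] w‖) atTop atTop ∨ AT f N w := by
    intro w hw
    have h1 : deriv (f^[N]) w = 0 := by
      rw [← hgp, Polynomial.deriv]
      exact hw
    rw [(opg_hasDeriv T N w).deriv, Finset.prod_eq_zero_iff] at h1
    obtain ⟨i, -, hi⟩ := h1
    rcases hcrit _ hi with h2 | h2
    · exact Or.inl (hesc w i h2)
    · exact Or.inr (hAT w i h2)
  -- the traps
  obtain ⟨R, hR1, hR⟩ := APX.escape_radius T hd
  have hfR : ∀ w : ℂ, R ≤ ‖w‖ → 2 * ‖w‖ ≤ ‖f w‖ := hR T rfl rfl (fun j => by simp)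
  have hfR2 : ∀ (k : ℕ) (w : ℂ), R ≤ ‖w‖ → ‖w‖ ≤ ‖f^[k] w‖ := by
    intro k w hw
    induction k with
    | zero => exact le_rfl
    | succ k ih =>
      rw [Function.iterate_succ_apply']
      have := hfR _ (hw.trans ih)
      linarith [norm_nonneg (f^[k] w)]
  have hfR3 : ∀ w : ℂ, R ≤ ‖w‖ → R < ‖f^[N] w‖ := by
    intro w hw
    obtain ⟨m, hm⟩ : ∃ m, N = m + 1 := ⟨N - 1, by omega⟩
    rw [hm, Function.iterate_succ_apply]
    have h1 := hfR w hw
    have h2 := hfR2 m (f w) (by linarith [norm_nonneg w])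
    linarith
  have hsink : ∀ x : ℂ, ∃ r : ℝ, 0 < r ∧ (f^[N] x = x → ‖deriv (f^[N]) x‖ < 1 →
      (∀ z ∈ closedBall x r, f^[N] z ∈ ball x r) ∧
      ∀ z ∈ closedBall x r, Tendsto (fun k : ℕ => (f^[N])^[k] z) atTop (𝓝 x)) := by
    intro x
    by_cases hx : f^[N] x = x ∧ ‖deriv (f^[N]) x‖ < 1
    · obtain ⟨r, hr, h1, h2⟩ := sink_trap (hfd.iterate N) hx.1 hx.2
      exact ⟨r, hr, fun _ _ => ⟨h1, h2⟩⟩
    · exact ⟨1, one_pos, fun h1 h2 => absurd ⟨h1, h2⟩ hx⟩
  choose r hr0 hr using hsink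
  have hfin : {x : ℂ | f^[N] x = x ∧ ‖deriv (f^[N]) x‖ < 1}.Finite :=
    (APX.finite_fix T hd N hN0).subset fun x hx => hx.1
  set Z : Finset ℂ := hfin.toFinset with hZ
  have hZmem : ∀ x, x ∈ Z ↔ f^[N] x = x ∧ ‖deriv (f^[N]) x‖ < 1 := by
    intro x
    rw [hZ, Set.Finite.mem_toFinset]
    rfl
  set C₀ : Set ℂ := {z | R ≤ ‖z‖} ∪ ⋃ x ∈ Z, closedBall x (r x) with hC₀
  set T₀ : Set ℂ := {z | R < ‖z‖} ∪ ⋃ x ∈ Z, ball x (r x) with hT₀
  have hC₀c : IsClosed C₀ := by
    refine IsClosed.union (isClosed_le continuous_const continuous_norm) ?_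
    exact isClosed_biUnion_finset fun x _ => isClosed_closedBall
  have hT₀o : IsOpen T₀ := by
    refine IsOpen.union (isOpen_lt continuous_const continuous_norm) ?_
    exact isOpen_biUnion fun x _ => isOpen_ball
  have hTC : T₀ ⊆ C₀ := by
    refine union_subset_union (fun z (hz : R < ‖z‖) => hz.le) ?_
    exact iUnion₂_mono fun x _ => ball_subset_closedBall
  have hmap : ∀ z ∈ C₀, p.eval z ∈ T₀ := by
    intro z hz
    rw [← hp z]
    rcases hz with hz | hz
    · exact Or.inl (hfR3 z hz)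
    · right
      obtain ⟨x, hx, hzx⟩ := mem_iUnion₂.1 hz
      have h1 := (hZmem x).1 hx
      exact mem_iUnion₂.2 ⟨x, hx, (hr x h1.1 h1.2).1 z hzx⟩
  have hbig : ∀ z : ℂ, R + 1 ≤ ‖z‖ → z ∈ T₀ := by
    intro z hz
    exact Or.inl (lt_of_lt_of_le (lt_add_one R) hz)
  have hcr : ∀ c, (derivative p).eval c = 0 → ∃ k : ℕ, (fun w => p.eval w)^[k] c ∈ C₀ := by
    intro c hc
    rw [hgp]
    rcases hpcrit c hc with h1 | ⟨x, hx1, hx2, hx3⟩
    · have h2 : Tendsto (fun k : ℕ => N * k) atTop atTop := tendsto_id.const_mul_atTop' hN0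
      obtain ⟨k, hk⟩ := ((h1.comp h2).eventually_ge_atTop R).exists
      refine ⟨k, Or.inl ?_⟩
      rw [← Function.iterate_mul]
      exact hk
    · have hxZ : x ∈ Z := (hZmem x).2 ⟨hx1, hx2⟩
      obtain ⟨k, hk⟩ := (hx3.eventually (ball_mem_nhds x (hr0 x))).exists
      refine ⟨k, Or.inr ?_⟩
      rw [← Function.iterate_mul]
      exact mem_iUnion₂.2 ⟨x, hxZ, ball_subset_closedBall hk⟩
  have hnull := trap_null hC₀c hT₀o hTC hmap hbig hcr hp'
  refine measure_mono_null ?_ hnull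
  intro z hz
  rw [mem_setOf_eq, hgp]
  intro n hn
  apply hz
  rw [← Function.iterate_mul] at hn
  rcases hn with hn | hn
  · left
    exact opg_escape hR1 hfR (le_of_lt hn)
  · right
    obtain ⟨x, hx, hzx⟩ := mem_iUnion₂.1 hn
    have h1 := (hZmem x).1 hx
    refine ⟨N, hN0, x, h1.1, h1.2, ?_⟩
    have h2 := (hr x h1.1 h1.2).2 _ (ball_subset_closedBall hzx)
    refine (tendsto_add_atTop_iff_nat (f := fun k => f^[N * k] z) n).1 ?_
    refine h2.congr fun k => ?_
    rw [mul_add, Function.iterate_add_apply, Function.iterate_mul f N k]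

end Pool.Agent.N251.AD
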